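import Mathlib
set_option autoImplicit false

open scoped BigOperators Topology Real ComplexConjugate
open Complex MeasureTheory Filter Set

namespace Pool.Agent.HermiteLoc

/-- Data: a holomorphic `f` on the disc of radius `2`, its derivative `f1`, and `p = z f'/f`. -/
structure DiscData where
  f : ℂ → ℂ
  f1 : ℂ → ℂ
  p : ℂ → ℂ
  p1 : ℂ → ℂ
  hf : ∀ z ∈ Metric.ball (0 : ℂ) 2, HasDerivAt f (f1 z) z
  hp : ∀ z ∈ Metric.ball (0 : ℂ) 2, HasDerivAt p (p1 z) z
  hf1 : ContinuousOn f1 (Metric.ball (0 : ℂ) 2)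
  hp1 : ContinuousOn p1 (Metric.ball (0 : ℂ) 2)
  hfp : ∀ z, f z * p z = z * f1 z
  f0 : f 0 = 0
  p0 : p 0 = 1

namespace DiscData

variable (D : DiscData) (b : ℂ)

/-- the exponential factor -/
noncomputable def E (F : ℂ) : ℂ := cexp (b * F - F * conj F)

/-- the first part of the boundary form -/
noncomputable def A (z : ℂ) : ℂ :=
  E b (D.f z) * (D.f z * conj (D.f z) * conj (D.p z) + D.p z) - cexp (b * D.f z) * D.p z

/-- the auxiliary angular form -/
noncomputable def B (z : ℂ) : ℂ :=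
  E b (D.f z) * (D.f z * conj (D.f z) * conj (D.p z) - D.p z) + cexp (b * D.f z) * D.p z

/-- the point with polar coordinates -/
noncomputable def pt (ρ θ : ℝ) : ℂ := ρ * cexp (θ * I)

lemma pt_norm (ρ θ : ℝ) : ‖pt ρ θ‖ = |ρ| := by
  rw [pt, norm_mul, Complex.norm_exp_ofReal_mul_I, mul_one, Complex.norm_real, Real.norm_eq_abs]

lemma pt_mem {ρ θ : ℝ} (h : |ρ| < 2) : pt ρ θ ∈ Metric.ball (0 : ℂ) 2 := by
  rw [mem_ball_zero_iff, pt_norm]; exact h

/-- derivative of `A` in direction with derivatives `F'`, `P'` -/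
noncomputable def dA (F P F' P' : ℂ) : ℂ :=
  E b F * (b * F' - (F' * conj F + F * conj F')) * (F * conj F * conj P + P)
  + E b F * ((F' * conj F + F * conj F') * conj P + F * conj F * conj P' + P')
  - (cexp (b * F) * (b * F') * P + cexp (b * F) * P')

/-- derivative of `B` in direction with derivatives `F'`, `P'` -/
noncomputable def dB (F P F' P' : ℂ) : ℂ :=
  E b F * (b * F' - (F' * conj F + F * conj F')) * (F * conj F * conj P - P)
  + E b F * ((F' * conj F + F * conj F') * conj P + F * conj F * conj P' - P')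
  + (cexp (b * F) * (b * F') * P + cexp (b * F) * P')

lemma hasDerivAt_conj {g : ℝ → ℂ} {g' : ℂ} {t : ℝ} (h : HasDerivAt g g' t) :
    HasDerivAt (fun t => conj (g t)) (conj g') t := h.star

lemma hasDerivAt_E {F : ℝ → ℂ} {F' : ℂ} {t : ℝ} (h : HasDerivAt F F' t) :
    HasDerivAt (fun t => E b (F t)) (E b (F t) * (b * F' - (F' * conj (F t) + F t * conj F'))) t := by
  unfold E
  exact ((h.const_mul b).sub (h.mul (hasDerivAt_conj h))).cexp

lemma hasDerivAt_A {z : ℝ → ℂ} {F' P' : ℂ} {t : ℝ} (hF : HasDerivAt (fun t => D.f (z t)) F' t)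
    (hP : HasDerivAt (fun t => D.p (z t)) P' t) :
    HasDerivAt (fun t => D.A b (z t)) (dA b (D.f (z t)) (D.p (z t)) F' P') t := by
  have h1 := hasDerivAt_E b hF
  have h2 := (hF.mul (hasDerivAt_conj hF)).mul (hasDerivAt_conj hP)
  have h3 := (h1.mul (h2.add hP)).sub ((hF.const_mul b).cexp.mul hP)
  unfold A dA
  refine h3.congr_deriv ?_
  simp only [Pi.mul_apply, Pi.add_apply]

lemma hasDerivAt_B {z : ℝ → ℂ} {F' P' : ℂ} {t : ℝ} (hF : HasDerivAt (fun t => D.f (z t)) F' t)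
    (hP : HasDerivAt (fun t => D.p (z t)) P' t) :
    HasDerivAt (fun t => D.B b (z t)) (dB b (D.f (z t)) (D.p (z t)) F' P') t := by
  have h1 := hasDerivAt_E b hF
  have h2 := (hF.mul (hasDerivAt_conj hF)).mul (hasDerivAt_conj hP)
  have h3 := (h1.mul (h2.sub hP)).add ((hF.const_mul b).cexp.mul hP)
  unfold B dB
  refine h3.congr_deriv ?_
  simp only [Pi.mul_apply, Pi.sub_apply]

/-- the key pointwise identity -/
lemma key (F P X Q : ℂ) (ρ : ℝ) (h : (ρ : ℂ) * X = F * P) :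
    (ρ : ℂ) * dA b F P X Q = I * dB b F P (I * ρ * X) (I * ρ * Q)
      - 2 * ρ ^ 2 * (X * conj X) * (F * (conj F - b)) * E b F := by
  have h' : (ρ : ℂ) * conj X = conj F * conj P := by
    have := congrArg conj h
    simpa using this
  unfold dA dB
  simp only [map_mul, Complex.conj_I, Complex.conj_ofReal]
  have hI : I * I = -1 := Complex.I_mul_I
  set cF := conj F
  set cP := conj P
  set cX := conj X
  set cQ := conj Q
  set EE := E b F
  set G := cexp (b * F)
  linear_combination (exp := 1) (-(ρ : ℂ)) * (EE * ((b * X - (X * cF - F * cX)) * (F * cF * cP - P))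
     + EE * ((X * cF - F * cX) * cP - F * cF * cQ - Q) + G * (b * X) * P + G * Q) * hI
     + (2 * EE * cX * ρ) * h - (2 * EE * (b - cF) * F * X * ρ + 2 * EE * X * ρ) * h'

lemma hasDerivAt_pt_rho (ρ θ : ℝ) : HasDerivAt (fun ρ : ℝ => pt ρ θ) (cexp (θ * I)) ρ := by
  have h := (Complex.ofRealCLM.hasDerivAt (x := ρ)).mul_const (cexp (θ * I))
  simpa [pt] using h

lemma hasDerivAt_pt_theta (ρ θ : ℝ) : HasDerivAt (fun θ : ℝ => pt ρ θ) (I * pt ρ θ) θ := by
  have h1 : HasDerivAt (fun θ : ℝ => (θ : ℂ) * I) I θ := by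
    simpa using (Complex.ofRealCLM.hasDerivAt (x := θ)).mul_const I
  have h := h1.cexp.const_mul (ρ : ℂ)
  refine h.congr_deriv ?_
  rw [pt]; ring

lemma hasDerivAt_f_rho {ρ : ℝ} (θ : ℝ) (h : |ρ| < 2) :
    HasDerivAt (fun ρ : ℝ => D.f (pt ρ θ)) (D.f1 (pt ρ θ) * cexp (θ * I)) ρ := by
  have := (D.hf _ (pt_mem (θ := θ) h)).scomp ρ (hasDerivAt_pt_rho ρ θ)
  exact this.congr_deriv (by rw [smul_eq_mul, mul_comm])

lemma hasDerivAt_p_rho {ρ : ℝ} (θ : ℝ) (h : |ρ| < 2) :
    HasDerivAt (fun ρ : ℝ => D.p (pt ρ θ)) (D.p1 (pt ρ θ) * cexp (θ * I)) ρ := by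
  have := (D.hp _ (pt_mem (θ := θ) h)).scomp ρ (hasDerivAt_pt_rho ρ θ)
  exact this.congr_deriv (by rw [smul_eq_mul, mul_comm])

lemma hasDerivAt_f_theta {ρ : ℝ} (θ : ℝ) (h : |ρ| < 2) :
    HasDerivAt (fun θ : ℝ => D.f (pt ρ θ)) (I * ρ * (D.f1 (pt ρ θ) * cexp (θ * I))) θ := by
  have := (D.hf _ (pt_mem (θ := θ) h)).scomp θ (hasDerivAt_pt_theta ρ θ)
  refine this.congr_deriv ?_
  simp only [smul_eq_mul]
  rw [show I * pt ρ θ = I * ρ * cexp (θ * I) by rw [pt]; ring]
  ring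

lemma hasDerivAt_p_theta {ρ : ℝ} (θ : ℝ) (h : |ρ| < 2) :
    HasDerivAt (fun θ : ℝ => D.p (pt ρ θ)) (I * ρ * (D.p1 (pt ρ θ) * cexp (θ * I))) θ := by
  have := (D.hp _ (pt_mem (θ := θ) h)).scomp θ (hasDerivAt_pt_theta ρ θ)
  refine this.congr_deriv ?_
  simp only [smul_eq_mul]
  rw [show I * pt ρ θ = I * ρ * cexp (θ * I) by rw [pt]; ring]
  ring

/-- radial derivative of `A` -/
noncomputable def AR (q : ℝ × ℝ) : ℂ :=
  dA b (D.f (pt q.1 q.2)) (D.p (pt q.1 q.2)) (D.f1 (pt q.1 q.2) * cexp (q.2 * I))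
    (D.p1 (pt q.1 q.2) * cexp (q.2 * I))

/-- angular derivative of `B` -/
noncomputable def BT (q : ℝ × ℝ) : ℂ :=
  dB b (D.f (pt q.1 q.2)) (D.p (pt q.1 q.2)) (I * q.1 * (D.f1 (pt q.1 q.2) * cexp (q.2 * I)))
    (I * q.1 * (D.p1 (pt q.1 q.2) * cexp (q.2 * I)))

/-- the area density in polar coordinates -/
noncomputable def H (q : ℝ × ℝ) : ℂ :=
  q.1 * (D.f1 (pt q.1 q.2) * conj (D.f1 (pt q.1 q.2)) *
    (D.f (pt q.1 q.2) * (conj (D.f (pt q.1 q.2)) - b)) * E b (D.f (pt q.1 q.2)))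

/-- the closed rectangle -/
def Rect : Set (ℝ × ℝ) := Icc 0 1 ×ˢ Icc (-π) π

lemma rect_mem {q : ℝ × ℝ} (hq : q ∈ Rect) : pt q.1 q.2 ∈ Metric.ball (0 : ℂ) 2 := by
  refine pt_mem ?_
  have := hq.1
  rw [abs_of_nonneg this.1]
  linarith [this.2]

lemma continuous_pt : Continuous fun q : ℝ × ℝ => pt q.1 q.2 := by
  unfold pt; fun_prop

lemma cont_comp {g : ℂ → ℂ} (hg : ContinuousOn g (Metric.ball (0 : ℂ) 2)) :
    ContinuousOn (fun q : ℝ × ℝ => g (pt q.1 q.2)) Rect :=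
  hg.comp continuous_pt.continuousOn fun _ hq => rect_mem hq

lemma cont_f : ContinuousOn D.f (Metric.ball (0 : ℂ) 2) := fun z hz =>
  (D.hf z hz).continuousAt.continuousWithinAt

lemma cont_p : ContinuousOn D.p (Metric.ball (0 : ℂ) 2) := fun z hz =>
  (D.hp z hz).continuousAt.continuousWithinAt

lemma cont_E {g : ℝ × ℝ → ℂ} (hg : ContinuousOn g Rect) :
    ContinuousOn (fun q : ℝ × ℝ => E b (g q)) Rect := by
  unfold E
  fun_prop

lemma cont_AR : ContinuousOn (D.AR b) Rect := by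
  have h1 := cont_comp D.cont_f
  have h2 := cont_comp D.cont_p
  have h3 := cont_comp D.hf1
  have h4 := cont_comp D.hp1
  have h5 := cont_E b h1
  unfold AR dA
  fun_prop

lemma cont_BT : ContinuousOn (D.BT b) Rect := by
  have h1 := cont_comp D.cont_f
  have h2 := cont_comp D.cont_p
  have h3 := cont_comp D.hf1
  have h4 := cont_comp D.hp1
  have h5 := cont_E b h1
  unfold BT dB
  fun_prop

lemma cont_H : ContinuousOn (D.H b) Rect := by
  have h1 := cont_comp D.cont_f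
  have h2 := cont_comp D.cont_p
  have h3 := cont_comp D.hf1
  have h4 := cont_comp D.hp1
  have h5 := cont_E b h1
  unfold H
  fun_prop

lemma AR_BT_H (q : ℝ × ℝ) :
    (q.1 : ℂ) * D.AR b q = I * D.BT b q - 2 * q.1 * D.H b q := by
  have h := key b (D.f (pt q.1 q.2)) (D.p (pt q.1 q.2)) (D.f1 (pt q.1 q.2) * cexp (q.2 * I))
    (D.p1 (pt q.1 q.2) * cexp (q.2 * I)) q.1 (by
      rw [D.hfp]; unfold pt; ring)
  unfold AR BT H
  rw [h]
  have e : cexp (q.2 * I) * conj (cexp (q.2 * I)) = 1 := by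
    rw [Complex.mul_conj, Complex.normSq_eq_norm_sq, Complex.norm_exp_ofReal_mul_I]; simp
  simp only [map_mul]
  linear_combination (-(2 * (q.1 : ℂ) ^ 2 * (D.f1 (pt q.1 q.2) * conj (D.f1 (pt q.1 q.2))) *
    (D.f (pt q.1 q.2) * (conj (D.f (pt q.1 q.2)) - b)) * E b (D.f (pt q.1 q.2)))) * e

/-- The angular integral for fixed radius. -/
lemma angular {ρ : ℝ} (h0 : 0 < ρ) (h1 : ρ ≤ 1) :
    ∫ θ in (-π)..π, D.AR b (ρ, θ) = -2 * ∫ θ in (-π)..π, D.H b (ρ, θ) := by
  have hπ : -π ≤ π := by linarith [Real.pi_pos]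
  have hslice : ∀ {g : ℝ × ℝ → ℂ}, ContinuousOn g Rect →
      ContinuousOn (fun θ => g (ρ, θ)) (uIcc (-π) π) := by
    intro g hg
    rw [uIcc_of_le hπ]
    exact hg.comp (by fun_prop) fun θ hθ => ⟨⟨h0.le, h1⟩, hθ⟩
  have hB : ∫ θ in (-π)..π, D.BT b (ρ, θ) = 0 := by
    have hd : ∀ θ ∈ uIcc (-π) π, HasDerivAt (fun θ : ℝ => D.B b (pt ρ θ)) (D.BT b (ρ, θ)) θ := by
      intro θ _
      have hρ : |ρ| < 2 := by rw [abs_of_pos h0]; linarith
      exact hasDerivAt_B D b (D.hasDerivAt_f_theta θ hρ) (D.hasDerivAt_p_theta θ hρ)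
    rw [intervalIntegral.integral_eq_sub_of_hasDerivAt hd (hslice (D.cont_BT b)).intervalIntegrable]
    have : pt ρ π = pt ρ (-π) := by
      unfold pt
      push_cast
      rw [neg_mul, Complex.exp_neg, Complex.exp_pi_mul_I]
      norm_num
    rw [this, sub_self]
  have hρ : (ρ : ℂ) ≠ 0 := by exact_mod_cast h0.ne'
  have hpt : ∀ θ : ℝ, D.AR b (ρ, θ) = (I / ρ) * D.BT b (ρ, θ) + (-2) * D.H b (ρ, θ) := by
    intro θ
    have h := D.AR_BT_H b (ρ, θ)
    simp only at h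
    field_simp
    linear_combination h
  simp_rw [hpt]
  rw [intervalIntegral.integral_add, intervalIntegral.integral_const_mul,
    intervalIntegral.integral_const_mul, hB]
  · simp
  · exact ((hslice (D.cont_BT b)).intervalIntegrable).const_mul _
  · exact ((hslice (D.cont_H b)).intervalIntegrable).const_mul _

/-- The radial integral for fixed angle. -/
lemma radial (θ : ℝ) (hθ : θ ∈ Icc (-π) π) :
    ∫ ρ in (0 : ℝ)..1, D.AR b (ρ, θ) = D.A b (pt 1 θ) := by
  have hd : ∀ ρ ∈ uIcc (0 : ℝ) 1, HasDerivAt (fun ρ : ℝ => D.A b (pt ρ θ)) (D.AR b (ρ, θ)) ρ := by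
    intro ρ hρ
    rw [uIcc_of_le zero_le_one] at hρ
    have hρ' : |ρ| < 2 := by rw [abs_of_nonneg hρ.1]; linarith [hρ.2]
    exact hasDerivAt_A D b (D.hasDerivAt_f_rho θ hρ') (D.hasDerivAt_p_rho θ hρ')
  have hslice : ContinuousOn (fun ρ => D.AR b (ρ, θ)) (uIcc 0 1) := by
    rw [uIcc_of_le zero_le_one]
    exact (D.cont_AR b).comp (by fun_prop) fun ρ hρ => ⟨hρ, hθ⟩
  rw [intervalIntegral.integral_eq_sub_of_hasDerivAt hd hslice.intervalIntegrable]
  have h0 : pt 0 θ = 0 := by simp [pt]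
  rw [h0]
  have : D.A b 0 = 0 := by
    simp [A, E, D.f0, D.p0]
  rw [this, sub_zero]

lemma rect_compact : IsCompact Rect := isCompact_Icc.prod isCompact_Icc

/-- The double integral of the density. -/
lemma double : ∫ ρ in (0 : ℝ)..1, ∫ θ in (-π)..π, D.H b (ρ, θ)
    = -(1 / 2) * ∫ θ in (-π)..π, D.A b (pt 1 θ) := by
  have hπ : -π ≤ π := by linarith [Real.pi_pos]
  have h1 : ∫ ρ in (0 : ℝ)..1, ∫ θ in (-π)..π, D.H b (ρ, θ)
      = ∫ ρ in (0 : ℝ)..1, (-(1 / 2) : ℂ) * ∫ θ in (-π)..π, D.AR b (ρ, θ) := by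
    refine intervalIntegral.integral_congr_ae ?_
    refine Eventually.of_forall fun ρ hρ => ?_
    rw [uIoc_of_le zero_le_one] at hρ
    rw [D.angular b hρ.1 hρ.2]
    ring
  rw [h1, intervalIntegral.integral_const_mul]
  congr 1
  have hint : Integrable (Function.uncurry fun ρ θ => D.AR b (ρ, θ))
      ((volume.restrict (Ioc (0 : ℝ) 1)).prod (volume.restrict (Ioc (-π) π))) := by
    rw [Measure.prod_restrict]
    have hc := (D.cont_AR b).integrableOn_compact (μ := (volume : Measure (ℝ × ℝ))) rect_compact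
    exact hc.mono_set (prod_mono Ioc_subset_Icc_self Ioc_subset_Icc_self)
  simp_rw [intervalIntegral.integral_of_le hπ, intervalIntegral.integral_of_le zero_le_one]
  rw [MeasureTheory.integral_integral_swap hint]
  refine setIntegral_congr_fun measurableSet_Ioc fun θ hθ => ?_
  have := D.radial b θ (Ioc_subset_Icc_self hθ)
  rwa [intervalIntegral.integral_of_le zero_le_one] at this

/-- The area formula. -/
theorem area : ∫ z in Metric.ball (0 : ℂ) 1, (D.f1 z * conj (D.f1 z) *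
    (D.f z * (conj (D.f z) - b)) * E b (D.f z)) = -(1 / 2) * ∫ θ in (-π)..π, D.A b (pt 1 θ) := by
  have hπ : -π ≤ π := by linarith [Real.pi_pos]
  rw [← D.double b]
  set g : ℂ → ℂ := fun z => D.f1 z * conj (D.f1 z) * (D.f z * (conj (D.f z) - b)) * E b (D.f z)
    with hg
  rw [← integral_indicator measurableSet_ball, ← Complex.integral_comp_polarCoord_symm]
  have hset : MeasurableSet (Ioo (0 : ℝ) 1 ×ˢ Ioo (-π) π) := measurableSet_Ioo.prod measurableSet_Ioo
  have hpt : ∀ q : ℝ × ℝ, Complex.polarCoord.symm q = pt q.1 q.2 := by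
    intro q
    rw [Complex.polarCoord_symm_apply, pt, Complex.exp_mul_I]
    push_cast
    ring
  have h1 : ∫ q in polarCoord.target, q.1 • (Metric.ball (0 : ℂ) 1).indicator g
      (Complex.polarCoord.symm q) = ∫ q in Ioo (0 : ℝ) 1 ×ˢ Ioo (-π) π, D.H b q := by
    rw [← integral_indicator polarCoord.open_target.measurableSet, ← integral_indicator hset]
    simp_rw [hpt]
    congr 1
    ext q
    by_cases hq : q ∈ Ioo (0 : ℝ) 1 ×ˢ Ioo (-π) π
    · have hq' : q ∈ polarCoord.target := by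
        rw [polarCoord_target]; exact ⟨hq.1.1, hq.2⟩
      rw [indicator_of_mem hq, indicator_of_mem hq', indicator_of_mem]
      · simp [H, hg]
      · rw [mem_ball_zero_iff, pt_norm, abs_of_pos hq.1.1]; exact hq.1.2
    · rw [indicator_of_notMem hq]
      by_cases hq' : q ∈ polarCoord.target
      · rw [indicator_of_mem hq', indicator_of_notMem, smul_zero]
        rw [mem_ball_zero_iff, pt_norm]
        rw [polarCoord_target] at hq'
        rw [abs_of_pos hq'.1]
        intro hlt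
        exact hq ⟨⟨hq'.1, hlt⟩, hq'.2⟩
      · rw [indicator_of_notMem hq']
  rw [h1, Measure.volume_eq_prod, setIntegral_prod]
  · rw [intervalIntegral.integral_of_le zero_le_one, integral_Ioc_eq_integral_Ioo]
    refine setIntegral_congr_fun measurableSet_Ioo fun ρ _ => ?_
    rw [intervalIntegral.integral_of_le hπ, integral_Ioc_eq_integral_Ioo]
  · rw [← Measure.volume_eq_prod]
    have hc := (D.cont_H b).integrableOn_compact (μ := (volume : Measure (ℝ × ℝ))) rect_compact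
    exact hc.mono_set (prod_mono Ioo_subset_Icc_self Ioo_subset_Icc_self)

end DiscData

end Pool.Agent.HermiteLoc
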