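import Pool.Agent.HermiteLoc.Wiener2
set_option autoImplicit false

open scoped BigOperators Topology
open Complex MeasureTheory Filter

namespace Pool.Agent.HermiteLoc

/-- normalising constants -/
noncomputable def cc (k : ℕ) : ℝ := (2 ^ (k + 2) * (k + 1))⁻¹

lemma cc_pos (k : ℕ) : 0 < cc k := by unfold cc; positivity

lemma wt_two (k : ℕ) : wt (k + 2 : ℤ) = 2 ^ (k + 2) := by
  unfold wt
  congr 1

lemma wt_neg_two (k : ℕ) : wt (-(k + 2 : ℤ)) = 2 ^ (k + 2) := by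
  unfold wt
  rw [Int.natAbs_neg]
  congr 1

lemma cc_mul (k : ℕ) : cc k * 2 ^ (k + 2) = 1 / (k + 1) := by
  unfold cc
  have : (2 : ℝ) ^ (k + 2) ≠ 0 := by positivity
  field_simp

lemma cc_bound (k : ℕ) : cc k * 2 ^ (k + 2) ≤ 2 := by
  rw [cc_mul, div_le_iff₀ (by positivity)]
  have : (0 : ℝ) ≤ k := by positivity
  linarith

lemma cc_bound' (k : ℕ) : (k + 2) * cc k * 2 ^ (k + 2) ≤ 2 := by
  rw [mul_assoc, cc_mul, mul_one_div, div_le_iff₀ (by positivity)]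
  have : (0 : ℝ) ≤ k := by positivity
  linarith

lemma bd1 (k : ℕ) : ‖cc k • T (k + 2 : ℤ)‖ ≤ 2 := by
  rw [norm_smul, norm_T, wt_two, Real.norm_of_nonneg (cc_pos k).le]
  exact cc_bound k

lemma bd2 (k : ℕ) : ‖cc k • T (-(k + 2 : ℤ))‖ ≤ 2 := by
  rw [norm_smul, norm_T, wt_neg_two, Real.norm_of_nonneg (cc_pos k).le]
  exact cc_bound k

lemma bd3 (k : ℕ) : ‖((k + 2) * cc k) • T (k + 2 : ℤ)‖ ≤ 2 := by
  rw [norm_smul, norm_T, wt_two, Real.norm_of_nonneg (by have := cc_pos k; positivity)]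
  exact cc_bound' k

lemma bd4 (k : ℕ) : ‖((k + 2) * cc k) • T (-(k + 2 : ℤ))‖ ≤ 2 := by
  rw [norm_smul, norm_T, wt_neg_two, Real.norm_of_nonneg (by have := cc_pos k; positivity)]
  exact cc_bound' k

/-- the higher order part of `v` -/
noncomputable def V : L1 →L[ℝ] WA := l1map (fun k => cc k • T (k + 2 : ℤ)) 2 bd1
/-- its reflection -/
noncomputable def Vs : L1 →L[ℝ] WA := l1map (fun k => cc k • T (-(k + 2 : ℤ))) 2 bd2
/-- the higher order part of `D v` -/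
noncomputable def DV : L1 →L[ℝ] WA := l1map (fun k => ((k + 2) * cc k) • T (k + 2 : ℤ)) 2 bd3
/-- its reflection -/
noncomputable def DVs : L1 →L[ℝ] WA := l1map (fun k => ((k + 2) * cc k) • T (-(k + 2 : ℤ))) 2 bd4

/-- the parameter space -/
abbrev P : Type := (ℝ × ℝ) × L1

/-- `w = v + v*` -/
noncomputable def W : P →L[ℝ] WA :=
  (2 : ℝ) • (((ContinuousLinearMap.fst ℝ ℝ ℝ).comp (ContinuousLinearMap.fst ℝ (ℝ × ℝ) L1)).smulRight (1 : WA))
  + ((ContinuousLinearMap.snd ℝ ℝ ℝ).comp (ContinuousLinearMap.fst ℝ (ℝ × ℝ) L1)).smulRight (T 1 + T (-1))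
  + (V + Vs).comp (ContinuousLinearMap.snd ℝ (ℝ × ℝ) L1)

lemma W_apply (p : P) : W p = (2 * p.1.1) • (1 : WA) + p.1.2 • (T 1 + T (-1)) + (V p.2 + Vs p.2) := by
  simp [W, smul_smul]

/-- `D v` -/
noncomputable def Dv : P →L[ℝ] WA :=
  ((ContinuousLinearMap.snd ℝ ℝ ℝ).comp (ContinuousLinearMap.fst ℝ (ℝ × ℝ) L1)).smulRight (T 1)
  + DV.comp (ContinuousLinearMap.snd ℝ (ℝ × ℝ) L1)

lemma Dv_apply (p : P) : Dv p = p.1.2 • T 1 + DV p.2 := by
  simp [Dv]

/-- `(D v)*` -/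
noncomputable def Dvs : P →L[ℝ] WA :=
  ((ContinuousLinearMap.snd ℝ ℝ ℝ).comp (ContinuousLinearMap.fst ℝ (ℝ × ℝ) L1)).smulRight (T (-1))
  + DVs.comp (ContinuousLinearMap.snd ℝ (ℝ × ℝ) L1)

lemma Dvs_apply (p : P) : Dvs p = p.1.2 • T (-1) + DVs p.2 := by
  simp [Dvs]

/-- the nonlinear map -/
noncomputable def Φ (p : P) : WA :=
  NormedSpace.exp (-NormedSpace.exp (W p)) *
    (1 + NormedSpace.exp (W p) + Dv p + NormedSpace.exp (W p) * Dvs p)

lemma exp_smul_one (c : ℝ) : NormedSpace.exp (c • (1 : WA)) = Real.exp c • (1 : WA) := by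
  have h := NormedSpace.algebraMap_exp_comm (𝕂 := ℝ) (𝔸 := WA) c
  rw [Algebra.algebraMap_eq_smul_one, Algebra.algebraMap_eq_smul_one, ← Real.exp_eq_exp_ℝ] at h
  exact h.symm

lemma W_base (v : ℝ) : W ((v, 0), 0) = (2 * v) • (1 : WA) := by
  rw [W_apply]; simp

lemma Φ_base (v : ℝ) : Φ ((v, 0), 0) =
    (Real.exp (-Real.exp (2 * v)) * (1 + Real.exp (2 * v))) • (1 : WA) := by
  have h1 : -(Real.exp (2 * v) • (1 : WA)) = (-Real.exp (2 * v)) • (1 : WA) := by rw [neg_smul]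
  rw [Φ, W_base, exp_smul_one, h1, exp_smul_one, Dv_apply, Dvs_apply]
  simp only [zero_smul, map_zero, add_zero, mul_zero]
  rw [show (1 : WA) + Real.exp (2 * v) • 1 = (1 + Real.exp (2 * v)) • 1 by rw [add_smul, one_smul],
    smul_mul_smul_comm, one_mul]

lemma Φ_hasStrictFDerivAt (v : ℝ) : HasStrictFDerivAt Φ
    (Real.exp (-Real.exp (2 * v)) • (-(Real.exp (2 * v) ^ 2) • W + Dv + Real.exp (2 * v) • Dvs))
    ((v, 0), 0) := by
  set τ := Real.exp (2 * v) with hτ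
  set p0 : P := ((v, 0), 0) with hp0
  have hE : HasStrictFDerivAt (fun p : P => NormedSpace.exp (W p)) (τ • W) p0 := by
    have h1 : HasStrictFDerivAt (NormedSpace.exp : WA → WA) _ (W p0) := hasStrictFDerivAt_exp (𝕂 := ℝ)
    have h2 := h1.comp p0 W.hasStrictFDerivAt
    refine h2.congr_fderiv ?_
    refine ContinuousLinearMap.ext fun δ => ?_
    simp [hp0, W_base, exp_smul_one, ← hτ]
  have hE0 : NormedSpace.exp (W p0) = τ • (1 : WA) := by rw [hp0, W_base, exp_smul_one]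
  have hG : HasStrictFDerivAt (fun p : P => NormedSpace.exp (-NormedSpace.exp (W p)))
      (-(Real.exp (-τ) * τ) • W) p0 := by
    have h1 : HasStrictFDerivAt (NormedSpace.exp : WA → WA) _ (-NormedSpace.exp (W p0)) :=
      hasStrictFDerivAt_exp (𝕂 := ℝ)
    have h2 := h1.comp p0 hE.neg
    refine h2.congr_fderiv ?_
    refine ContinuousLinearMap.ext fun δ => ?_
    change NormedSpace.exp (-NormedSpace.exp (W p0)) * (-(τ • W δ)) = (-(Real.exp (-τ) * τ)) • W δ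
    rw [hE0, ← neg_smul τ (1 : WA), exp_smul_one, ← neg_smul, smul_mul_smul_comm, one_mul]
    congr 1; ring
  have hG0 : NormedSpace.exp (-NormedSpace.exp (W p0)) = Real.exp (-τ) • (1 : WA) := by
    rw [hE0, ← neg_smul, exp_smul_one]
  have hH : HasStrictFDerivAt
      (fun p : P => 1 + NormedSpace.exp (W p) + Dv p + NormedSpace.exp (W p) * Dvs p)
      (τ • W + Dv + τ • Dvs) p0 := by
    have h1 := ((hE.const_add (1 : WA)).add Dv.hasStrictFDerivAt).add (hE.mul Dvs.hasStrictFDerivAt)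
    refine h1.congr_fderiv ?_
    refine ContinuousLinearMap.ext fun δ => ?_
    have h4 : Dvs p0 = 0 := by rw [Dvs_apply]; simp [hp0]
    simp [hE0, h4]
  have hH0 : (1 + NormedSpace.exp (W p0) + Dv p0 + NormedSpace.exp (W p0) * Dvs p0) =
      (1 + τ) • (1 : WA) := by
    rw [hE0, Dv_apply, Dvs_apply]; simp [hp0, add_smul]
  have h := hG.mul hH
  refine h.congr_fderiv ?_
  refine ContinuousLinearMap.ext fun δ => ?_
  change NormedSpace.exp (-NormedSpace.exp (W p0)) * (τ • W δ + Dv δ + τ • Dvs δ) +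
      (1 + NormedSpace.exp (W p0) + Dv p0 + NormedSpace.exp (W p0) * Dvs p0) *
        ((-(Real.exp (-τ) * τ)) • W δ) = Real.exp (-τ) • (-(τ ^ 2) • W δ + Dv δ + τ • Dvs δ)
  rw [hG0, hH0, smul_mul_assoc, smul_mul_assoc, one_mul, one_mul]
  simp only [smul_add, smul_smul]
  have e1 : (Real.exp (-τ) * τ) • W δ + ((1 + τ) * (-(Real.exp (-τ) * τ))) • W δ
      = (Real.exp (-τ) * -τ ^ 2) • W δ := by
    rw [← add_smul]; congr 1; ring
  rw [← e1]
  abel

end Pool.Agent.HermiteLoc
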