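import Pool.Agent.HermiteLoc.Disc
set_option autoImplicit false

open scoped BigOperators Topology Real ComplexConjugate
open Complex MeasureTheory Filter Set

namespace Pool.Agent.HermiteLoc

/-- the holomorphic function `v` -/
noncomputable def vfun (q : P) (z : ℂ) : ℂ :=
  q.1.1 + q.1.2 * z + ∑' k : ℕ, (q.2 k : ℂ) * (cc k * z ^ (k + 2))

/-- its derivative -/
noncomputable def v1 (q : P) (z : ℂ) : ℂ :=
  q.1.2 + ∑' k : ℕ, (q.2 k : ℂ) * (cc k * ((k + 2) * z ^ (k + 1)))

lemma term_bound (q : P) (k : ℕ) {z : ℂ} (hz : z ∈ Metric.ball (0 : ℂ) 2) :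
    ‖(q.2 k : ℂ) * (cc k * ((k + 2) * z ^ (k + 1)))‖ ≤ |q.2 k| := by
  rw [mem_ball_zero_iff] at hz
  rw [norm_mul, Complex.norm_real, Real.norm_eq_abs]
  refine mul_le_of_le_one_right (abs_nonneg _) ?_
  rw [norm_mul, norm_mul, Complex.norm_real, Real.norm_eq_abs, abs_of_pos (cc_pos k), norm_pow]
  have h2 : ‖((k : ℂ) + 2)‖ = k + 2 := by
    have : ((k : ℂ) + 2) = ((k + 2 : ℝ) : ℂ) := by push_cast; ring
    rw [this, Complex.norm_real, Real.norm_of_nonneg (by positivity)]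
  rw [h2]
  have h3 : ‖z‖ ^ (k + 1) ≤ 2 ^ (k + 1) := pow_le_pow_left₀ (norm_nonneg _) hz.le _
  have h4 := cc_bound' k
  have h5 := cc_pos k
  calc cc k * ((k + 2) * ‖z‖ ^ (k + 1)) ≤ cc k * ((k + 2) * 2 ^ (k + 1)) := by gcongr
    _ = ((k + 2) * cc k * 2 ^ (k + 2)) / 2 := by ring
    _ ≤ 1 := by linarith

lemma summable_v1 (q : P) {z : ℂ} (hz : z ∈ Metric.ball (0 : ℂ) 2) :
    Summable fun k : ℕ => (q.2 k : ℂ) * (cc k * ((k + 2) * z ^ (k + 1))) :=
  Summable.of_norm_bounded (L1_summable q.2) fun k => term_bound q k hz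

lemma hasDerivAt_vfun (q : P) {z : ℂ} (hz : z ∈ Metric.ball (0 : ℂ) 2) :
    HasDerivAt (vfun q) (v1 q z) z := by
  have h := hasDerivAt_tsum_of_isPreconnected (𝕜 := ℂ) (u := fun k => |q.2 k|)
    (g := fun (k : ℕ) (z : ℂ) => (q.2 k : ℂ) * (cc k * z ^ (k + 2)))
    (g' := fun (k : ℕ) (z : ℂ) => (q.2 k : ℂ) * (cc k * ((k + 2) * z ^ (k + 1))))
    (t := Metric.ball (0 : ℂ) 2) (y₀ := 0) (y := z)
    (L1_summable q.2) Metric.isOpen_ball (convex_ball _ _).isPreconnected ?_ ?_ (by simp) ?_ hz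
  · have h1 : HasDerivAt (fun z : ℂ => (q.1.1 : ℂ) + q.1.2 * z) (q.1.2) z := by
      simpa using ((hasDerivAt_id z).const_mul (q.1.2 : ℂ)).const_add (q.1.1 : ℂ)
    exact h1.add h
  · intro k y _
    have h2 := ((hasDerivAt_pow (k + 2) y).const_mul (cc k : ℂ)).const_mul (q.2 k : ℂ)
    refine h2.congr_deriv ?_
    push_cast
    simp
  · intro k y hy
    exact term_bound q k hy
  · simp only [ne_eq, Nat.add_eq_zero_iff, OfNat.ofNat_ne_zero, and_false, not_false_eq_true,
      zero_pow, mul_zero]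
    exact summable_zero

lemma differentiableOn_vfun (q : P) : DifferentiableOn ℂ (vfun q) (Metric.ball 0 2) := fun _ hz =>
  (hasDerivAt_vfun q hz).differentiableAt.differentiableWithinAt

lemma differentiableOn_v1 (q : P) : DifferentiableOn ℂ (v1 q) (Metric.ball 0 2) := by
  have h := (differentiableOn_vfun q).deriv Metric.isOpen_ball
  refine h.congr fun z hz => ?_
  exact (hasDerivAt_vfun q hz).deriv.symm

/-- the conformal map attached to a parameter -/
noncomputable def DD (q : P) : DiscData where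
  f z := z * cexp (vfun q z)
  f1 z := cexp (vfun q z) * (1 + z * v1 q z)
  p z := 1 + z * v1 q z
  p1 := deriv fun z => 1 + z * v1 q z
  hf z hz := by
    have h := (hasDerivAt_id z).mul (hasDerivAt_vfun q hz).cexp
    refine h.congr_deriv ?_
    simp
    ring
  hp z hz := by
    have h : DifferentiableAt ℂ (fun z => 1 + z * v1 q z) z := by
      have := (differentiableOn_v1 q).differentiableAt (Metric.isOpen_ball.mem_nhds hz)
      fun_prop
    exact h.hasDerivAt
  hf1 := by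
    have h1 := (differentiableOn_v1 q).continuousOn
    have h2 := (differentiableOn_vfun q).continuousOn
    fun_prop
  hp1 := by
    have h : DifferentiableOn ℂ (fun z => 1 + z * v1 q z) (Metric.ball 0 2) := by
      have := differentiableOn_v1 q
      fun_prop
    exact (h.deriv Metric.isOpen_ball).continuousOn
  hfp z := by ring
  f0 := by simp
  p0 := by simp

lemma pt_one_pow (θ : ℝ) (n : ℕ) : DiscData.pt 1 θ ^ n = cexp ((n : ℤ) * θ * I) := by
  rw [DiscData.pt, ofReal_one, one_mul, ← Complex.exp_nat_mul]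
  congr 1
  push_cast; ring

lemma conj_pt_one_pow (θ : ℝ) (n : ℕ) :
    conj (DiscData.pt 1 θ ^ n) = cexp ((-(n : ℤ) : ℤ) * θ * I) := by
  rw [pt_one_pow, ← Complex.exp_conj]
  congr 1
  simp

lemma pt_one_mem (θ : ℝ) : DiscData.pt 1 θ ∈ Metric.ball (0 : ℂ) 2 :=
  DiscData.pt_mem (by simp)

lemma ev_V (θ : ℝ) (x : L1) :
    ev θ (V x) = ∑' k : ℕ, (x k : ℂ) * (cc k * DiscData.pt 1 θ ^ (k + 2)) := by
  rw [V, map_l1map]
  refine tsum_congr fun k => ?_
  rw [map_smul, ev_T, pt_one_pow, Complex.real_smul, Complex.real_smul]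
  push_cast
  ring_nf

lemma ev_Vs (θ : ℝ) (x : L1) :
    ev θ (Vs x) = conj (∑' k : ℕ, (x k : ℂ) * (cc k * DiscData.pt 1 θ ^ (k + 2))) := by
  rw [Vs, map_l1map, Complex.conj_tsum]
  refine tsum_congr fun k => ?_
  rw [map_smul, ev_T, map_mul, map_mul, Complex.conj_ofReal, Complex.conj_ofReal, conj_pt_one_pow,
    Complex.real_smul, Complex.real_smul]
  push_cast
  ring_nf

lemma ev_DV (θ : ℝ) (x : L1) :
    ev θ (DV x) = DiscData.pt 1 θ *
      ∑' k : ℕ, (x k : ℂ) * (cc k * ((k + 2) * DiscData.pt 1 θ ^ (k + 1))) := by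
  rw [DV, map_l1map, ← tsum_mul_left]
  refine tsum_congr fun k => ?_
  have h := pt_one_pow θ (k + 2)
  have h2 : ev θ (T (k + 2 : ℤ)) = DiscData.pt 1 θ ^ (k + 2) := by
    rw [h, ev_T]; push_cast; ring_nf
  rw [map_smul, h2, Complex.real_smul, Complex.real_smul]
  push_cast
  ring

lemma ev_DVs (θ : ℝ) (x : L1) :
    ev θ (DVs x) = conj (DiscData.pt 1 θ *
      ∑' k : ℕ, (x k : ℂ) * (cc k * ((k + 2) * DiscData.pt 1 θ ^ (k + 1)))) := by
  rw [DVs, map_l1map, ← tsum_mul_left, Complex.conj_tsum]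
  refine tsum_congr fun k => ?_
  have h := conj_pt_one_pow θ (k + 2)
  have h2 : ev θ (T (-(k + 2 : ℤ))) = conj (DiscData.pt 1 θ ^ (k + 2)) := by
    rw [h, ev_T]; push_cast; ring_nf
  have h3 : DiscData.pt 1 θ * ((x k : ℂ) * (cc k * ((k + 2) * DiscData.pt 1 θ ^ (k + 1))))
    = (x k : ℂ) * (cc k * ((k + 2) * DiscData.pt 1 θ ^ (k + 2))) := by ring
  rw [map_smul, h2, h3, Complex.real_smul, Complex.real_smul]
  simp only [map_mul, map_add, Complex.conj_ofReal, map_natCast, Complex.conj_ofNat, ofReal_mul,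
    ofReal_add, ofReal_natCast, ofReal_ofNat]
  ring

lemma ev_T_one (θ : ℝ) : ev θ (T 1) = DiscData.pt 1 θ := by
  have := pt_one_pow θ 1
  rw [pow_one] at this
  rw [ev_T, this]
  simp

lemma ev_T_neg_one (θ : ℝ) : ev θ (T (-1)) = conj (DiscData.pt 1 θ) := by
  have := conj_pt_one_pow θ 1
  rw [pow_one] at this
  rw [ev_T, this]
  simp

lemma ev_W (q : P) (θ : ℝ) :
    ev θ (W q) = vfun q (DiscData.pt 1 θ) + conj (vfun q (DiscData.pt 1 θ)) := by
  rw [W_apply]
  simp only [map_add, map_smul, ev_one, ev_T_one, ev_T_neg_one, ev_V, ev_Vs, Complex.real_smul]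
  unfold vfun
  simp only [map_add, map_mul, Complex.conj_ofReal]
  push_cast
  ring

lemma ev_Dv (q : P) (θ : ℝ) : ev θ (Dv q) = DiscData.pt 1 θ * v1 q (DiscData.pt 1 θ) := by
  rw [Dv_apply]
  simp only [map_add, map_smul, ev_T_one, ev_DV, Complex.real_smul]
  unfold v1
  ring

lemma ev_Dvs (q : P) (θ : ℝ) : ev θ (Dvs q) = conj (DiscData.pt 1 θ * v1 q (DiscData.pt 1 θ)) := by
  rw [Dvs_apply]
  simp only [map_add, map_smul, ev_T_neg_one, ev_DVs, Complex.real_smul]
  unfold v1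
  simp only [map_add, map_mul, Complex.conj_ofReal]
  ring

lemma ev_Φ (q : P) (θ : ℝ) (b : ℂ) :
    (DD q).A b (DiscData.pt 1 θ) = cexp (b * (DD q).f (DiscData.pt 1 θ)) * ev θ (Φ q)
      - cexp (b * (DD q).f (DiscData.pt 1 θ)) * (DD q).p (DiscData.pt 1 θ) := by
  set z := DiscData.pt 1 θ with hz
  have hzz : z * conj z = 1 := by
    rw [Complex.mul_conj, Complex.normSq_eq_norm_sq, hz, DiscData.pt_norm]
    simp
  have hτ : (DD q).f z * conj ((DD q).f z) = cexp (ev θ (W q)) := by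
    rw [ev_W, Complex.exp_add, Complex.exp_conj]
    change z * cexp (vfun q z) * conj (z * cexp (vfun q z)) = _
    rw [map_mul]
    linear_combination (cexp (vfun q z) * conj (cexp (vfun q z))) * hzz
  have hp : (DD q).p z = 1 + ev θ (Dv q) := by rw [ev_Dv]; rfl
  have hp' : conj ((DD q).p z) = 1 + ev θ (Dvs q) := by
    rw [ev_Dvs]
    change conj (1 + z * v1 q z) = _
    rw [map_add, map_one]
  have hΦ : ev θ (Φ q) = cexp (-cexp (ev θ (W q))) *
      (1 + cexp (ev θ (W q)) + ev θ (Dv q) + cexp (ev θ (W q)) * ev θ (Dvs q)) := by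
    rw [Φ, ev_mul, ev_exp, map_neg, ev_exp]
    simp only [map_add, ev_one, ev_mul, ev_exp]
  unfold DiscData.A DiscData.E
  rw [hp', hτ, hΦ, hp, Complex.exp_sub, div_eq_mul_inv, ← Complex.exp_neg]
  ring

lemma cf_Φ_neg (q : P) (hF : F q = 0) (hb : b q = 0) (m : ℤ) (hm : m < 0) : cf m (Φ q) = 0 := by
  by_cases h : m = -1
  · subst h; exact hb
  · obtain ⟨k, hk⟩ : ∃ k : ℕ, m = -(k + 2 : ℤ) := ⟨(-m - 2).toNat, by omega⟩
    subst hk
    have h1 := negProj_apply (Φ q) k
    have h2 : negProj (Φ q) = 0 := hF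
    rw [h2] at h1
    have h3 : (0 : ℝ) = 2 ^ (k + 2) * cf (-(k + 2 : ℤ)) (Φ q) := h1
    have h4 : (2 : ℝ) ^ (k + 2) ≠ 0 := by positivity
    exact (mul_eq_zero.1 h3.symm).resolve_left h4

/-- The basic consequence of the equations: the weighted integral does not depend on `b`. -/
theorem J_const (q : P) (hF : F q = 0) (hb : b q = 0) (c : ℂ) :
    ∫ z in Metric.ball (0 : ℂ) 1, ((DD q).f1 z * conj ((DD q).f1 z) *
      ((DD q).f z * (conj ((DD q).f z) - c)) * DiscData.E c ((DD q).f z)) =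
      π * (1 - cf 0 (Φ q)) := by
  rw [(DD q).area c]
  simp_rw [ev_Φ]
  have hfd : DifferentiableOn ℂ (DD q).f (Metric.ball 0 2) := fun z hz =>
    ((DD q).hf z hz).differentiableAt.differentiableWithinAt
  have hpd : DifferentiableOn ℂ (DD q).p (Metric.ball 0 2) := fun z hz =>
    ((DD q).hp z hz).differentiableAt.differentiableWithinAt
  have hg1 : DifferentiableOn ℂ (fun z => cexp (c * (DD q).f z)) (Metric.ball 0 2) := by fun_prop
  have hg2 : DifferentiableOn ℂ (fun z => cexp (c * (DD q).f z) * (DD q).p z)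
    (Metric.ball 0 2) := by fun_prop
  have h1 := mean_value _ hg1 (Φ q) (cf_Φ_neg q hF hb)
  have h2 := mean_value _ hg2 1 (fun m hm => cf_one m hm)
  have h3 : cf 0 (1 : WA) = 1 := by rw [← T_zero, cf_T, if_pos rfl]
  simp only [ev_one, mul_one, h3, (DD q).f0, (DD q).p0, mul_zero, Complex.exp_zero, ofReal_one] at h1 h2
  have hc : ∀ {g : ℂ → ℂ}, DifferentiableOn ℂ g (Metric.ball 0 2) →
      Continuous fun θ : ℝ => g (DiscData.pt 1 θ) := by
    intro g hg
    have h : ContinuousOn g (Metric.ball 0 2) := hg.continuousOn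
    exact h.comp_continuous (by unfold DiscData.pt; fun_prop) fun θ => pt_one_mem θ
  rw [intervalIntegral.integral_sub, h1, h2]
  · ring
  · exact ((hc hg1).mul (continuous_ev _)).intervalIntegrable _ _
  · exact (hc hg2).intervalIntegrable _ _

end Pool.Agent.HermiteLoc
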