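import Mathlib
set_option autoImplicit false

/-!
Definitions for the localization operators with Hermite windows.
-/

open scoped Real ComplexConjugate InnerProductSpace
open Complex MeasureTheory

namespace Pool.Agent.HermiteLoc

/-- The time-frequency shift `π(w) g (t) = exp (2 π i ξ t) g (t - x)` for `w = (x, ξ)`. -/
noncomputable def tfShift (w : ℝ × ℝ) (g : ℝ → ℂ) (t : ℝ) : ℂ :=
  cexp (2 * π * I * w.2 * t) * g (t - w.1)

/-- The short-time Fourier transform `V_g f (w) = ⟨f, π(w) g⟩`, the inner product being linear in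
the first argument: `V_g f (w) = ∫ f(t) conj (π(w) g (t)) dt`. -/
noncomputable def stft (g f : ℝ → ℂ) (w : ℝ × ℝ) : ℂ :=
  ∫ t, f t * conj (tfShift w g t)

/-- The unnormalised Hermite function `exp (π t²) (d/dt)^n exp (-2 π t²)`. -/
noncomputable def hermiteAux (n : ℕ) (t : ℝ) : ℝ :=
  Real.exp (π * t ^ 2) * iteratedDeriv n (fun s : ℝ => Real.exp (-2 * π * s ^ 2)) t

/-- The normalised Hermite function `h_n = c_n exp (π t²) (d/dt)^n exp (-2 π t²)`, where
`c_n = (∫ (hermiteAux n)²)^(-1/2) > 0` makes the `L²` norm equal to one. -/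
noncomputable def hermiteFn (n : ℕ) (t : ℝ) : ℂ :=
  (((Real.sqrt (∫ s, hermiteAux n s ^ 2))⁻¹ * hermiteAux n t : ℝ) : ℂ)

/-- The Hilbert space `L²(ℝ)`. -/
abbrev L2R : Type := Lp ℂ 2 (volume : Measure ℝ)

/-- `T` is the localization operator `H^r_Ω` with Hermite window `h_r` and symbol the indicator
function of `Ω`: for all `f, g` in `L²(ℝ)`,
`⟨T f, g⟩ = ∫_Ω V_{h_r} f (w) conj (V_{h_r} g (w)) dw`
(Mathlib's inner product `⟪g, T f⟫` is linear in the second argument). -/
def IsLocOp (r : ℕ) (Ω : Set (ℝ × ℝ)) (T : L2R →L[ℂ] L2R) : Prop :=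
  ∀ f g : L2R, ⟪g, T f⟫_ℂ =
    ∫ w in Ω, stft (hermiteFn r) f w * conj (stft (hermiteFn r) g w)

/-- The open disc of radius `R` centred at the origin of the time-frequency plane. -/
def disc (R : ℝ) : Set (ℝ × ℝ) := {w | w.1 ^ 2 + w.2 ^ 2 < R ^ 2}

end Pool.Agent.HermiteLoc
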