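import Pool.Agent.HermiteLoc.Solve
import Pool.Agent.HermiteLoc.Area
set_option autoImplicit false

open scoped BigOperators Topology Real ComplexConjugate BoundedContinuousFunction
open Complex MeasureTheory Filter Set

namespace Pool.Agent.HermiteLoc

/-- the exponential as a bounded continuous function of the angle -/
noncomputable def expB (n : ℤ) : ℝ →ᵇ ℂ :=
  BoundedContinuousFunction.ofNormedAddCommGroup (fun θ : ℝ => cexp (n * θ * I)) (by fun_prop) 1
    (fun θ => by
      have := Complex.norm_exp_ofReal_mul_I (n * θ)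
      push_cast at this
      exact this.le)

lemma expB_norm (n : ℤ) : ‖expB n‖ ≤ wt n :=
  (BoundedContinuousFunction.norm_ofNormedAddCommGroup_le _ zero_le_one _).trans (one_le_wt n)

/-- evaluation on the circle, as a bounded continuous function of the angle -/
noncomputable def evB : WA →L[ℝ] (ℝ →ᵇ ℂ) := wmap expB expB_norm

lemma evB_apply (a : WA) (θ : ℝ) : evB a θ = ev θ a := by
  refine WA_induction (motive := fun a => evB a θ = ev θ a) a ?_ (by simp) ?_ ?_
  · refine isClosed_eq ?_ (ev θ).continuous
    have h : Continuous fun g : ℝ →ᵇ ℂ => g θ := by fun_prop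
    exact h.comp evB.continuous
  · intro a b ha hb
    rw [map_add, map_add, BoundedContinuousFunction.add_apply, ha, hb]
  · intro n r
    rw [map_smul, map_smul, ev_T, evB, wmap_T]
    rfl

lemma continuous_ev (a : WA) : Continuous fun θ : ℝ => ev θ a := by
  have h := (evB a).continuous
  have e : (fun θ : ℝ => ev θ a) = evB a := by
    ext θ; rw [evB_apply]
  rw [e]; exact h

/-- the Fourier coefficient functional as an integral -/
noncomputable def FI (n : ℤ) : WA →L[ℝ] ℂ :=
  LinearMap.mkContinuous
    { toFun := fun a => ∫ θ in (-π)..π, cexp (n * θ * I) * ev θ a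
      map_add' := by
        intro a b
        have h : ∀ a, IntervalIntegrable (fun θ : ℝ => cexp (n * θ * I) * ev θ a) volume (-π) π :=
          fun a => Continuous.intervalIntegrable (by
            have := continuous_ev a
            fun_prop) _ _
        rw [← intervalIntegral.integral_add (h a) (h b)]
        simp [mul_add]
      map_smul' := by
        intro r a
        simp only [RingHom.id_apply, map_smul, mul_smul_comm]
        exact intervalIntegral.integral_smul _ _ } (2 * π)
    (by
      intro a
      have h : ∀ θ ∈ Set.uIoc (-π) π, ‖cexp (n * θ * I) * ev θ a‖ ≤ ‖a‖ := by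
        intro θ _
        rw [norm_mul]
        have h1 : ‖cexp (n * θ * I)‖ = 1 := by
          have := Complex.norm_exp_ofReal_mul_I (n * θ)
          push_cast at this
          exact this
        rw [h1, one_mul]
        exact ev_norm θ a
      have := intervalIntegral.norm_integral_le_of_norm_le_const h
      refine this.trans (le_of_eq ?_)
      rw [sub_neg_eq_add, abs_of_pos (by linarith [Real.pi_pos])]
      ring)

lemma FI_apply (n : ℤ) (a : WA) : FI n a = ∫ θ in (-π)..π, cexp (n * θ * I) * ev θ a := rfl

lemma integral_exp_int (n : ℤ) : ∫ θ in (-π)..π, cexp (n * θ * I) = if n = 0 then (2 * π : ℂ) else 0 := by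
  split_ifs with h
  · subst h
    simp
    ring
  · have hn : (n * I : ℂ) ≠ 0 := by
      refine mul_ne_zero ?_ Complex.I_ne_zero
      exact_mod_cast h
    have := integral_exp_mul_complex (a := -π) (b := π) hn
    have e : ∀ θ : ℝ, (n * θ * I : ℂ) = n * I * θ := fun θ => by ring
    simp_rw [e]
    rw [this]
    have e2 : cexp (n * I * (π : ℝ)) = cexp (n * I * ((-π : ℝ) : ℂ)) := by
      rw [Complex.exp_eq_exp_iff_exists_int]
      refine ⟨n, ?_⟩
      push_cast
      ring
    rw [e2, sub_self, zero_div]

lemma FI_eq (n : ℤ) (a : WA) : FI n a = 2 * π * cf (-n) a := by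
  refine WA_induction (motive := fun a => FI n a = 2 * π * cf (-n) a) a ?_ (by simp) ?_ ?_
  · refine isClosed_eq (FI n).continuous ?_
    have := (cf (-n)).continuous
    fun_prop
  · intro a b ha hb
    rw [map_add, map_add, ha, hb]
    push_cast; ring
  · intro m r
    rw [map_smul, map_smul, cf_T, FI_apply]
    have e : ∀ θ : ℝ, cexp (n * θ * I) * ev θ (T m) = cexp ((n + m : ℤ) * θ * I) := by
      intro θ
      rw [ev_T, ← Complex.exp_add]
      congr 1
      push_cast; ring
    simp_rw [e]
    rw [integral_exp_int]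
    by_cases h : m = -n
    · subst h
      simp; ring
    · rw [if_neg h, if_neg (by omega)]
      simp

/-- Mean value property against an element without negative coefficients. -/
lemma mean_value (g : ℂ → ℂ) (hg : DifferentiableOn ℂ g (Metric.ball 0 2)) (a : WA)
    (ha : ∀ m : ℤ, m < 0 → cf m a = 0) :
    ∫ θ in (-π)..π, g (DiscData.pt 1 θ) * ev θ a = 2 * π * g 0 * cf 0 a := by
  have hπ : -π ≤ π := by linarith [Real.pi_pos]
  set R : NNReal := 3 / 2 with hR
  have hRpos : 0 < R := by rw [hR]; positivity
  have hball : DifferentiableOn ℂ g (Metric.closedBall 0 R) := by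
    refine hg.mono (Metric.closedBall_subset_ball ?_)
    rw [hR]; norm_num
  have hps := hball.hasFPowerSeriesOnBall hRpos
  set P := cauchyPowerSeries g 0 R with hP
  have hsum : Summable fun n => ‖P n‖ := by
    have h1 : (1 : NNReal) < P.radius := by
      refine lt_of_lt_of_le ?_ hps.r_le
      rw [hR]
      norm_cast
      rw [lt_div_iff₀ (by norm_num)]
      norm_num
    have := P.summable_norm_mul_pow h1
    simpa using this
  have hseries : ∀ θ : ℝ, HasSum (fun n : ℕ => (cexp ((n : ℤ) * θ * I) * ev θ a) * P.coeff n)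
      (g (DiscData.pt 1 θ) * ev θ a) := by
    intro θ
    have hmem : DiscData.pt 1 θ ∈ Metric.eball (0 : ℂ) R := by
      rw [Metric.mem_eball, edist_zero_right, ← ofReal_norm, DiscData.pt_norm, hR]
      norm_num
      rw [ENNReal.lt_div_iff_mul_lt (by norm_num) (by norm_num)]
      norm_num
    have h := hps.hasSum hmem
    rw [zero_add] at h
    have h2 := h.mul_right (ev θ a)
    convert! h2 using 1
    ext n
    rw [FormalMultilinearSeries.apply_eq_pow_smul_coeff, smul_eq_mul]
    have : DiscData.pt 1 θ ^ n = cexp ((n : ℤ) * θ * I) := by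
      rw [DiscData.pt, ofReal_one, one_mul, ← Complex.exp_nat_mul]
      congr 1
      push_cast; ring
    rw [this]; ring
  rw [intervalIntegral.integral_of_le hπ]
  have hcont : ∀ n : ℕ, Continuous fun θ : ℝ => (cexp ((n : ℤ) * θ * I) * ev θ a) * P.coeff n := by
    intro n
    have := continuous_ev a
    fun_prop
  have hnorm : ∀ (n : ℕ) (θ : ℝ), ‖(cexp ((n : ℤ) * θ * I) * ev θ a) * P.coeff n‖ ≤ ‖a‖ * ‖P n‖ := by
    intro n θ
    rw [norm_mul, norm_mul]
    have h1 : ‖cexp ((n : ℤ) * θ * I)‖ = 1 := by
      have := Complex.norm_exp_ofReal_mul_I ((n : ℤ) * θ)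
      push_cast at this
      push_cast
      exact this
    rw [h1, one_mul, FormalMultilinearSeries.norm_apply_eq_norm_coef]
    exact mul_le_mul_of_nonneg_right (ev_norm θ a) (norm_nonneg _)
  have hint : ∀ n : ℕ, Integrable (fun θ : ℝ => (cexp ((n : ℤ) * θ * I) * ev θ a) * P.coeff n)
      (volume.restrict (Ioc (-π) π)) := fun n =>
    ((hcont n).integrableOn_Icc (a := -π) (b := π)).mono_set Ioc_subset_Icc_self
  have hs := hasSum_integral_of_summable_integral_norm hint (by
    refine Summable.of_nonneg_of_le (fun n => integral_nonneg fun θ => norm_nonneg _)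
      (f := fun n => (2 * π) * (‖a‖ * ‖P n‖)) ?_ ((hsum.mul_left ‖a‖).mul_left (2 * π))
    intro n
    have h := setIntegral_mono_on (μ := (volume : Measure ℝ)) (s := Ioc (-π) π)
      (f := fun θ : ℝ => ‖(cexp ((n : ℤ) * θ * I) * ev θ a) * P.coeff n‖)
      (g := fun _ => ‖a‖ * ‖P n‖) (hint n).norm
      ((continuous_const.integrableOn_Icc).mono_set Ioc_subset_Icc_self) measurableSet_Ioc
      (fun θ _ => hnorm n θ)
    refine h.trans (le_of_eq ?_)
    rw [setIntegral_const, Real.volume_real_Ioc_of_le hπ, smul_eq_mul]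
    ring)
  have e1 : ∫ θ in Ioc (-π) π, g (DiscData.pt 1 θ) * ev θ a
      = ∫ θ in Ioc (-π) π, ∑' n : ℕ, (cexp ((n : ℤ) * θ * I) * ev θ a) * P.coeff n := by
    refine integral_congr_ae (Eventually.of_forall fun θ => ?_)
    exact (hseries θ).tsum_eq.symm
  rw [e1, ← hs.tsum_eq]
  have e2 : ∀ n : ℕ, ∫ θ in Ioc (-π) π, (cexp ((n : ℤ) * θ * I) * ev θ a) * P.coeff n
      = (2 * π * cf (-n) a) * P.coeff n := by
    intro n
    rw [integral_mul_const, ← intervalIntegral.integral_of_le hπ]
    congr 1
    exact FI_eq n a
  simp_rw [e2]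
  rw [tsum_eq_single 0]
  · have h0 : P.coeff 0 = g 0 := by
      have := hps.coeff_zero (fun _ => 0)
      rw [FormalMultilinearSeries.coeff]
      exact hps.coeff_zero _
    rw [h0]
    simp
    ring
  · intro n hn
    rw [ha (-n) (by omega)]
    simp

end Pool.Agent.HermiteLoc
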