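import Pool.Agent.HermiteLoc.Conf
set_option autoImplicit false

open scoped BigOperators Topology Real ComplexConjugate
open Complex MeasureTheory Filter Set

namespace Pool.Agent.HermiteLoc

/-- smallness conditions on the parameter -/
structure Small (q : P) : Prop where
  hv : |q.1.1| < 1 / 40
  hs : 0 < q.1.2
  hs' : q.1.2 < 1 / 40
  hx : ‖q.2‖ ≤ 1 / 40 * q.1.2

lemma term_bound' (q : P) (k : ℕ) {z : ℂ} (hz : ‖z‖ ≤ 2) :
    ‖(q.2 k : ℂ) * (cc k * z ^ (k + 2))‖ ≤ |q.2 k| := by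
  rw [norm_mul, Complex.norm_real, Real.norm_eq_abs]
  refine mul_le_of_le_one_right (abs_nonneg _) ?_
  rw [norm_mul, Complex.norm_real, Real.norm_eq_abs, abs_of_pos (cc_pos k), norm_pow]
  have h3 : ‖z‖ ^ (k + 2) ≤ 2 ^ (k + 2) := pow_le_pow_left₀ (norm_nonneg _) hz _
  have h5 := cc_pos k
  calc cc k * ‖z‖ ^ (k + 2) ≤ cc k * 2 ^ (k + 2) := by gcongr
    _ = 1 / (k + 1) := cc_mul k
    _ ≤ 1 := by
      rw [div_le_one (by positivity)]
      have : (0 : ℝ) ≤ k := by positivity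
      linarith

lemma vfun_bound (q : P) (hq : Small q) {z : ℂ} (hz : z ∈ Metric.ball (0 : ℂ) 2) :
    ‖vfun q z‖ ≤ 1 / 8 := by
  have hz' := mem_ball_zero_iff.1 hz
  have hb : ‖∑' k : ℕ, (q.2 k : ℂ) * (cc k * z ^ (k + 2))‖ ≤ ‖q.2‖ := by
    rw [L1_norm]
    exact tsum_of_norm_bounded (L1_summable q.2).hasSum fun k => term_bound' q k hz'.le
  unfold vfun
  have h1 : ‖(q.1.1 : ℂ)‖ < 1 / 40 := by rw [Complex.norm_real]; exact hq.hv
  have h2 : ‖(q.1.2 : ℂ) * z‖ ≤ 1 / 20 := by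
    rw [norm_mul, Complex.norm_real, Real.norm_eq_abs, abs_of_pos hq.hs]
    nlinarith [hq.hs, hq.hs', norm_nonneg z]
  have h3 := norm_add₃_le (a := (q.1.1 : ℂ)) (b := (q.1.2 : ℂ) * z)
    (c := ∑' k : ℕ, (q.2 k : ℂ) * (cc k * z ^ (k + 2)))
  have h4 := hq.hx
  have h5 := hq.hs'
  linarith

lemma v1_bound (q : P) (hq : Small q) {z : ℂ} (hz : z ∈ Metric.ball (0 : ℂ) 2) :
    ‖v1 q z‖ ≤ 1 / 20 := by
  have hb : ‖∑' k : ℕ, (q.2 k : ℂ) * (cc k * ((k + 2) * z ^ (k + 1)))‖ ≤ ‖q.2‖ := by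
    rw [L1_norm]
    exact tsum_of_norm_bounded (L1_summable q.2).hasSum fun k => term_bound q k hz
  unfold v1
  have h2 : ‖(q.1.2 : ℂ)‖ < 1 / 40 := by
    rw [Complex.norm_real, Real.norm_eq_abs, abs_of_pos hq.hs]; exact hq.hs'
  have h3 := norm_add_le (q.1.2 : ℂ) (∑' k : ℕ, (q.2 k : ℂ) * (cc k * ((k + 2) * z ^ (k + 1))))
  have h4 := hq.hx
  have h5 := hq.hs'
  linarith

lemma f1_bound (q : P) (hq : Small q) {z : ℂ} (hz : z ∈ Metric.ball (0 : ℂ) 2) :
    ‖(DD q).f1 z - 1‖ ≤ 1 / 2 := by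
  change ‖cexp (vfun q z) * (1 + z * v1 q z) - 1‖ ≤ 1 / 2
  have hz' := mem_ball_zero_iff.1 hz
  have h1 := vfun_bound q hq hz
  have h2 := v1_bound q hq hz
  have h3 : ‖cexp (vfun q z) - 1‖ ≤ 1 / 4 := by
    have := Complex.norm_exp_sub_one_le (x := vfun q z) (by linarith)
    linarith
  have h4 : ‖z * v1 q z‖ ≤ 1 / 10 := by
    rw [norm_mul]
    nlinarith [norm_nonneg z, norm_nonneg (v1 q z)]
  have h5 : ‖cexp (vfun q z)‖ ≤ 5 / 4 := by
    have := norm_add_le (cexp (vfun q z) - 1) 1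
    rw [sub_add_cancel, norm_one] at this
    linarith
  have e : cexp (vfun q z) * (1 + z * v1 q z) - 1 =
      (cexp (vfun q z) - 1) + cexp (vfun q z) * (z * v1 q z) := by ring
  rw [e]
  refine (norm_add_le _ _).trans ?_
  rw [norm_mul]
  nlinarith [norm_nonneg (cexp (vfun q z)), norm_nonneg (z * v1 q z)]

lemma f1_ne_zero (q : P) (hq : Small q) {z : ℂ} (hz : z ∈ Metric.ball (0 : ℂ) 2) :
    (DD q).f1 z ≠ 0 := by
  intro h
  have := f1_bound q hq hz
  rw [h] at this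
  norm_num at this

lemma f_inj (q : P) (hq : Small q) : InjOn (DD q).f (Metric.ball (0 : ℂ) 2) := by
  intro z hz w hw hzw
  have hd : ∀ x ∈ Metric.ball (0 : ℂ) 2,
      HasDerivWithinAt (fun z => (DD q).f z - z) ((DD q).f1 x - 1) (Metric.ball (0 : ℂ) 2) x := by
    intro x hx
    exact (((DD q).hf x hx).sub (hasDerivAt_id x)).hasDerivWithinAt
  have h := (convex_ball (0 : ℂ) 2).norm_image_sub_le_of_norm_hasDerivWithin_le hd
    (fun x hx => f1_bound q hq hx) hz hw
  rw [← hzw] at h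
  have e : (DD q).f z - w - ((DD q).f z - z) = -(w - z) := by ring
  rw [e, norm_neg] at h
  have h2 : ‖w - z‖ = 0 := by
    have := norm_nonneg (w - z)
    linarith
  exact (sub_eq_zero.1 (norm_eq_zero.1 h2)).symm

lemma f_analytic (q : P) {z : ℂ} (hz : z ∈ Metric.ball (0 : ℂ) 2) : AnalyticAt ℂ (DD q).f z := by
  have h : DifferentiableOn ℂ (DD q).f (Metric.ball 0 2) := fun z hz =>
    ((DD q).hf z hz).differentiableAt.differentiableWithinAt
  exact h.analyticAt (Metric.isOpen_ball.mem_nhds hz)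

lemma f_strict (q : P) {z : ℂ} (hz : z ∈ Metric.ball (0 : ℂ) 2) :
    HasStrictDerivAt (DD q).f ((DD q).f1 z) z := by
  have h := (f_analytic q hz).hasStrictDerivAt
  rwa [((DD q).hf z hz).deriv] at h

lemma f_nhds (q : P) (hq : Small q) {z : ℂ} (hz : z ∈ Metric.ball (0 : ℂ) 2) :
    map (DD q).f (𝓝 z) = 𝓝 ((DD q).f z) :=
  (f_strict q hz).map_nhds_eq (f1_ne_zero q hq hz)

lemma ball_sub : Metric.ball (0 : ℂ) 1 ⊆ Metric.ball (0 : ℂ) 2 :=
  Metric.ball_subset_ball (by norm_num)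

lemma cball_sub : Metric.closedBall (0 : ℂ) 1 ⊆ Metric.ball (0 : ℂ) 2 :=
  Metric.closedBall_subset_ball (by norm_num)

/-- the domain, in the complex plane, before scaling -/
def Om (q : P) : Set ℂ := (DD q).f '' Metric.ball (0 : ℂ) 1

lemma isOpen_Om (q : P) (hq : Small q) : IsOpen (Om q) := by
  rw [isOpen_iff_mem_nhds]
  rintro _ ⟨z, hz, rfl⟩
  rw [← f_nhds q hq (ball_sub hz)]
  exact image_mem_map (Metric.isOpen_ball.mem_nhds hz)

lemma nonempty_Om (q : P) : (Om q).Nonempty := ⟨(DD q).f 0, 0, by simp, rfl⟩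

lemma simply_Om (q : P) (hq : Small q) : IsSimplyConnected (Om q) := by
  set g : Metric.ball (0 : ℂ) 1 → ℂ := fun z => (DD q).f z with hg
  have hgc : Continuous g := by
    have h := (DD q).cont_f
    exact h.comp_continuous continuous_subtype_val fun z => ball_sub z.2
  have hgi : Function.Injective g := by
    intro z w hzw
    exact Subtype.ext (f_inj q hq (ball_sub z.2) (ball_sub w.2) hzw)
  have hgo : IsOpenMap g := by
    intro U hU
    obtain ⟨V, hV, rfl⟩ := isOpen_induced_iff.1 hU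
    have e : g '' (Subtype.val ⁻¹' V) = (DD q).f '' (V ∩ Metric.ball 0 1) := by
      ext y
      constructor
      · rintro ⟨z, hz, rfl⟩
        exact ⟨z, ⟨hz, z.2⟩, rfl⟩
      · rintro ⟨z, ⟨hz, hz'⟩, rfl⟩
        exact ⟨⟨z, hz'⟩, hz, rfl⟩
    rw [e, isOpen_iff_mem_nhds]
    rintro _ ⟨z, hz, rfl⟩
    rw [← f_nhds q hq (ball_sub hz.2)]
    exact image_mem_map ((hV.inter Metric.isOpen_ball).mem_nhds hz)
  have hge : Topology.IsEmbedding g := (Topology.IsOpenEmbedding.of_continuous_injective_isOpenMap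
    hgc hgi hgo).isEmbedding
  have himg : Om q = g '' univ := by
    ext y
    constructor
    · rintro ⟨z, hz, rfl⟩
      exact ⟨⟨z, hz⟩, mem_univ _, rfl⟩
    · rintro ⟨z, _, rfl⟩
      exact ⟨z, z.2, rfl⟩
  rw [himg, hge.isSimplyConnected_image]
  have hc : ContractibleSpace (Metric.ball (0 : ℂ) 1) :=
    (convex_ball (0 : ℂ) 1).contractibleSpace ⟨0, by simp⟩
  have hs : SimplyConnectedSpace (Metric.ball (0 : ℂ) 1) := inferInstance
  exact (Homeomorph.Set.univ (Metric.ball (0 : ℂ) 1)).toHomotopyEquiv.simplyConnectedSpace_iff.2 hs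

/-- the closed image -/
def Kc (q : P) : Set ℂ := (DD q).f '' Metric.closedBall (0 : ℂ) 1

lemma compact_Kc (q : P) : IsCompact (Kc q) :=
  (isCompact_closedBall (0 : ℂ) 1).image_of_continuousOn ((DD q).cont_f.mono cball_sub)

lemma Om_sub_Kc (q : P) : Om q ⊆ Kc q := image_mono Metric.ball_subset_closedBall

lemma volume_Om_lt (q : P) : volume (Om q) < ⊤ :=
  (measure_mono (Om_sub_Kc q)).trans_lt (compact_Kc q).measure_lt_top

lemma volume_Om_pos (q : P) (hq : Small q) : 0 < volume (Om q) :=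
  (isOpen_Om q hq).measure_pos volume (nonempty_Om q)

lemma norm_f_one (q : P) (z : ℂ) (hz : ‖z‖ = 1) : ‖(DD q).f z‖ = Real.exp (vfun q z).re := by
  change ‖z * cexp (vfun q z)‖ = _
  rw [norm_mul, hz, one_mul, Complex.norm_exp]

lemma norm_lt (q : P) (hq : Small q) : ‖(DD q).f (-1)‖ < ‖(DD q).f 1‖ := by
  rw [norm_f_one q (-1) (by simp), norm_f_one q 1 (by simp), Real.exp_lt_exp]
  set S1 := ∑' k : ℕ, (q.2 k : ℂ) * (cc k * (1 : ℂ) ^ (k + 2)) with hS1
  set S2 := ∑' k : ℕ, (q.2 k : ℂ) * (cc k * (-1 : ℂ) ^ (k + 2)) with hS2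
  have h1 : ‖S1‖ ≤ ‖q.2‖ := by
    rw [L1_norm]
    exact tsum_of_norm_bounded (L1_summable q.2).hasSum fun k => term_bound' q k (by simp)
  have h2 : ‖S2‖ ≤ ‖q.2‖ := by
    rw [L1_norm]
    exact tsum_of_norm_bounded (L1_summable q.2).hasSum fun k => term_bound' q k (by simp)
  have e1 : (vfun q 1).re = q.1.1 + q.1.2 + S1.re := by
    rw [vfun, ← hS1]; simp
  have e2 : (vfun q (-1)).re = q.1.1 - q.1.2 + S2.re := by
    rw [vfun, ← hS2]; simp; ring
  rw [e1, e2]
  have h3 := (abs_le.1 ((Complex.abs_re_le_norm S1).trans h1)).1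
  have h4 := (abs_le.1 ((Complex.abs_re_le_norm S2).trans h2)).2
  have := hq.hx
  have := hq.hs
  linarith

/-- The domain is not a disc centred at the origin, even up to null sets. -/
theorem not_disc (q : P) (hq : Small q) (R : ℝ) :
    ¬ (Om q =ᵐ[volume] Metric.ball (0 : ℂ) R) := by
  intro h
  have hopen := isOpen_Om q hq
  -- the domain is contained in the closed ball
  have h1 : Om q ⊆ Metric.closedBall (0 : ℂ) R := by
    have hU : IsOpen (Om q \ Metric.closedBall (0 : ℂ) R) := hopen.sdiff Metric.isClosed_closedBall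
    have hnull : volume (Om q \ Metric.closedBall (0 : ℂ) R) = 0 := by
      have : volume (Om q \ Metric.ball (0 : ℂ) R) = 0 := (ae_eq_set.1 h).1
      exact measure_mono_null (sdiff_subset_sdiff_right Metric.ball_subset_closedBall) this
    have := (hU.measure_eq_zero_iff volume).1 hnull
    rwa [sdiff_eq_empty] at this
  have h2 : Metric.ball (0 : ℂ) R ⊆ Kc q := by
    have hU : IsOpen (Metric.ball (0 : ℂ) R \ Kc q) :=
      Metric.isOpen_ball.sdiff (compact_Kc q).isClosed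
    have hnull : volume (Metric.ball (0 : ℂ) R \ Kc q) = 0 := by
      have : volume (Metric.ball (0 : ℂ) R \ Om q) = 0 := (ae_eq_set.1 h).2
      exact measure_mono_null (sdiff_subset_sdiff_right (Om_sub_Kc q)) this
    have := (hU.measure_eq_zero_iff volume).1 hnull
    rwa [sdiff_eq_empty] at this
  have h3 : ‖(DD q).f 1‖ ≤ R := by
    have hcl : (DD q).f 1 ∈ closure (Om q) := by
      have hc : ContinuousWithinAt (DD q).f (Metric.ball 0 1) 1 :=
        ((DD q).hf 1 (cball_sub (by simp))).continuousAt.continuousWithinAt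
      have hm : (1 : ℂ) ∈ closure (Metric.ball (0 : ℂ) 1) := by
        rw [closure_ball _ one_ne_zero]; simp
      exact hc.mem_closure_image hm
    have := closure_minimal h1 Metric.isClosed_closedBall hcl
    simpa using this
  have h4 : ‖(DD q).f (-1)‖ < R := (norm_lt q hq).trans_le h3
  -- points slightly beyond `-1` are mapped into the ball as well
  have hcont : ContinuousAt (fun t : ℝ => (DD q).f (-(t : ℂ))) 1 := by
    have hc : ContinuousAt (DD q).f (-((1 : ℝ) : ℂ)) :=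
      ((DD q).hf _ (cball_sub (by simp))).continuousAt
    exact ContinuousAt.comp (f := fun t : ℝ => (-(t : ℂ))) (g := (DD q).f) hc (by fun_prop)
  have hev : ∀ᶠ t : ℝ in 𝓝 1, ‖(DD q).f (-(t : ℂ))‖ < R := by
    have h5 : ‖(DD q).f (-((1 : ℝ) : ℂ))‖ < R := by simpa using h4
    exact hcont.norm.eventually (Iio_mem_nhds h5)
  have hev2 : ∀ᶠ t : ℝ in 𝓝 1, t < 2 := gt_mem_nhds (by norm_num)
  obtain ⟨η, hη, hall⟩ := Metric.eventually_nhds_iff.1 (hev.and hev2)
  set t : ℝ := 1 + η / 2 with ht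
  have hd : dist t 1 < η := by
    rw [Real.dist_eq, ht, add_sub_cancel_left, abs_of_pos (by positivity)]; linarith
  obtain ⟨ht1, ht2⟩ := hall hd
  have ht0 : 1 < t := by rw [ht]; linarith
  have hmem : (DD q).f (-(t : ℂ)) ∈ Kc q := h2 (by simpa using ht1)
  obtain ⟨w, hw, hwe⟩ := hmem
  have hnt : ‖(-(t : ℂ))‖ = t := by
    rw [norm_neg, Complex.norm_real, Real.norm_of_nonneg (by linarith)]
  have hw2 := f_inj q hq (cball_sub hw) (by rw [mem_ball_zero_iff, hnt]; exact ht2) hwe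
  rw [hw2, mem_closedBall_zero_iff, hnt] at hw
  linarith

end Pool.Agent.HermiteLoc
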