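import Pool.Agent.HermiteLoc.Oper
import Pool.Agent.HermiteLoc.Geo
set_option autoImplicit false

open scoped BigOperators Topology Real ComplexConjugate FourierTransform InnerProductSpace ENNReal
open Complex MeasureTheory Filter Set

namespace Pool.Agent.HermiteLoc

lemma sqrtpi_ne : Real.sqrt π ≠ 0 := (Real.sqrt_pos.2 Real.pi_pos).ne'

/-- scaled identification of the time-frequency plane with the complex plane -/
noncomputable def PsiH : ℝ × ℝ ≃ₜ ℂ :=
  Complex.equivRealProdCLM.symm.toHomeomorph.trans (Homeomorph.smulOfNeZero (Real.sqrt π) sqrtpi_ne)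

lemma PsiH_apply (w : ℝ × ℝ) : PsiH w = (Real.sqrt π : ℂ) * (w.1 + w.2 * I) := by
  simp [PsiH, Complex.equivRealProdCLM_symm_apply]
  ring

lemma PsiH_apply' (w : ℝ × ℝ) :
    PsiH w = (Real.sqrt π) • (Complex.measurableEquivRealProd.symm w) := by
  rw [PsiH_apply, Complex.real_smul]
  congr 1
  apply Complex.ext <;> simp [Complex.measurableEquivRealProd_symm_apply]

lemma integral_Psi (S : Set ℂ) (hS : MeasurableSet S) (g : ℂ → ℂ) :
    ∫ w in PsiH ⁻¹' S, g (PsiH w) = (1 / π : ℂ) * ∫ z in S, g z := by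
  have hS' : MeasurableSet (PsiH ⁻¹' S) := PsiH.continuous.measurable hS
  rw [← integral_indicator hS', ← integral_indicator hS]
  have e : ∀ w : ℝ × ℝ, (PsiH ⁻¹' S).indicator (fun w => g (PsiH w)) w =
      (fun Z : ℂ => (S.indicator g) (Real.sqrt π • Z)) (Complex.measurableEquivRealProd.symm w) := by
    intro w
    simp only [← PsiH_apply']
    rfl
  simp_rw [e]
  rw [(Complex.volume_preserving_equiv_real_prod.symm).integral_comp
    Complex.measurableEquivRealProd.symm.measurableEmbedding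
    (fun Z : ℂ => (S.indicator g) (Real.sqrt π • Z)), Measure.integral_comp_smul]
  rw [Complex.finrank_real_complex, Real.sq_sqrt Real.pi_pos.le, abs_of_pos (by positivity),
    Complex.real_smul]
  push_cast
  ring

lemma volume_Psi (S : Set ℂ) (hS : MeasurableSet S) :
    volume (PsiH ⁻¹' S) = ENNReal.ofReal (1 / π) * volume S := by
  have e : PsiH ⁻¹' S = Complex.measurableEquivRealProd.symm ⁻¹' ((Real.sqrt π • ·) ⁻¹' S) := by
    ext w
    simp only [mem_preimage, PsiH_apply']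
  rw [e, (Complex.volume_preserving_equiv_real_prod.symm).measure_preimage]
  · rw [Measure.addHaar_preimage_smul _ sqrtpi_ne, Complex.finrank_real_complex,
      Real.sq_sqrt Real.pi_pos.le, abs_of_pos (by positivity), one_div]
  · exact (measurable_const_smul (Real.sqrt π) hS).nullMeasurableSet

/-- The change of variables given by the conformal map. -/
lemma integral_Om (q : P) (hq : Small q) (g : ℂ → ℂ) :
    ∫ z in Om q, g z = ∫ z in Metric.ball (0 : ℂ) 1,
      ((DD q).f1 z * conj ((DD q).f1 z)) * g ((DD q).f z) := by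
  have hd : ∀ x ∈ Metric.ball (0 : ℂ) 1, HasFDerivWithinAt (DD q).f
      ((ContinuousLinearMap.toSpanSingleton ℂ ((DD q).f1 x)).restrictScalars ℝ)
      (Metric.ball (0 : ℂ) 1) x := by
    intro x hx
    exact (((DD q).hf x (ball_sub hx)).hasFDerivAt.restrictScalars ℝ).hasFDerivWithinAt
  have h := integral_image_eq_integral_abs_det_fderiv_smul volume
    (s := Metric.ball (0 : ℂ) 1) Metric.isOpen_ball.measurableSet hd
    ((f_inj q hq).mono ball_sub) g
  rw [Om, h]
  refine integral_congr_ae (Eventually.of_forall fun z => ?_)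
  simp only
  have hdet : ((ContinuousLinearMap.toSpanSingleton ℂ ((DD q).f1 z)).restrictScalars ℝ).det
      = Complex.normSq ((DD q).f1 z) := by
    rw [← Algebra.norm_complex_apply]
    rw [ContinuousLinearMap.det, Algebra.norm_apply]
    congr 1
    ext w
    simp [mul_comm]
  rw [hdet, abs_of_nonneg (Complex.normSq_nonneg _), Complex.real_smul, ← Complex.mul_conj]

lemma integral_Om_E (q : P) (hq : Small q) (hF : F q = 0) (hb : b q = 0) (c : ℂ) :
    ∫ z in Om q, z * (conj z - c) * DiscData.E c z = π * (1 - cf 0 (Φ q)) := by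
  rw [integral_Om q hq, ← J_const q hF hb c]
  refine integral_congr_ae (Eventually.of_forall fun z => ?_)
  simp only
  ring

lemma stft_congr {f g : ℝ → ℂ} (h : f =ᵐ[volume] g) (k : ℝ → ℂ) (w : ℝ × ℝ) :
    stft k f w = stft k g w := by
  unfold stft
  refine integral_congr_ae ?_
  filter_upwards [h] with t ht
  rw [ht]

lemma stft_h0 (w : ℝ × ℝ) : stft (hermiteFn 1) (hermiteFn 0) w = nc 0 * stft (hermiteFn 1) (tst 0) w := by
  unfold stft
  rw [← integral_const_mul]
  refine integral_congr_ae (Eventually.of_forall fun t => ?_)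
  simp only
  rw [hermiteFn_zero]
  ring

/-- the constant in the computation -/
noncomputable def KK : ℂ := 2 * π * nc 1 * c0

/-- The product of two short-time Fourier transforms in terms of the scaled complex variable. -/
lemma prod_stft (η : ℝ) (w : ℝ × ℝ) :
    stft (hermiteFn 1) (hermiteFn 0) w * conj (stft (hermiteFn 1) (tst η) w) =
      (nc 0 * (KK * conj KK) * cexp (-(π / 2) * η ^ 2) * (1 / π)) *
        (PsiH w * (conj (PsiH w) - (-I * Real.sqrt π * η)) *
          DiscData.E (-I * Real.sqrt π * η) (PsiH w)) := by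
  rw [stft_h0, stft_tst, stft_tst, PsiH_apply]
  have hs : (Real.sqrt π : ℂ) * (Real.sqrt π : ℂ) = π := by
    rw [← Complex.ofReal_mul, Real.mul_self_sqrt Real.pi_pos.le]
  have hπ : (π : ℂ) ≠ 0 := by exact_mod_cast Real.pi_ne_zero
  have hI : I * I = -1 := Complex.I_mul_I
  unfold DiscData.E KK
  simp only [map_mul, map_add, map_sub, map_neg, map_pow, Complex.conj_ofReal, Complex.conj_I,
    ← Complex.exp_conj, map_div₀, Complex.conj_ofNat, Complex.ofReal_zero, mul_zero, sub_zero, zero_sub]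
  have e1 : cexp (-(π / 2) * ((w.1 : ℂ) ^ 2 + (-(w.2 : ℂ)) ^ 2) + π * I * -(w.2 : ℂ) * w.1) *
      cexp (-(π / 2) * ((w.1 : ℂ) ^ 2 + ((η : ℂ) - w.2) ^ 2) + π * -I * ((η : ℂ) - w.2) * w.1) =
      cexp (-(π / 2) * η ^ 2) * cexp (-I * Real.sqrt π * η * ((Real.sqrt π : ℂ) * (w.1 + w.2 * I)) -
        (Real.sqrt π : ℂ) * (w.1 + w.2 * I) * ((Real.sqrt π : ℂ) * (w.1 + w.2 * -I))) := by
    rw [← Complex.exp_add, ← Complex.exp_add]
    congr 1
    linear_combination ((I * η + w.1 + w.2 * -I) * (w.1 + w.2 * I)) * hs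
      + (π * η * w.2 - π * w.2 ^ 2) * hI
  have e2 : (1 / π : ℂ) * ((Real.sqrt π : ℂ) * (w.1 + w.2 * I) *
      ((Real.sqrt π : ℂ) * (w.1 + w.2 * -I) - -I * Real.sqrt π * η)) =
      (w.1 + w.2 * I) * (w.1 + w.2 * -I - -I * η) := by
    field_simp
    linear_combination ((w.1 + w.2 * I) * (w.1 - w.2 * I + I * η)) * hs
  set A1 := cexp (-(π / 2) * ((w.1 : ℂ) ^ 2 + (-(w.2 : ℂ)) ^ 2) + π * I * -(w.2 : ℂ) * w.1)
  set A2 := cexp (-(π / 2) * ((w.1 : ℂ) ^ 2 + ((η : ℂ) - w.2) ^ 2) + π * -I * ((η : ℂ) - w.2) * w.1)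
  set A3 := cexp (-(π / 2) * η ^ 2)
  set A4 := cexp (-I * Real.sqrt π * η * ((Real.sqrt π : ℂ) * (w.1 + w.2 * I)) -
        (Real.sqrt π : ℂ) * (w.1 + w.2 * I) * ((Real.sqrt π : ℂ) * (w.1 + w.2 * -I)))
  linear_combination ((nc 0 : ℂ) * (2 * π * nc 1 * c0) * (2 * π * nc 1 * conj c0) *
      (w.1 + w.2 * I) * (w.1 + w.2 * -I - -I * η)) * e1
    - ((nc 0 : ℂ) * (2 * π * nc 1 * c0) * (2 * π * nc 1 * conj c0) * A3 * A4) * e2

/-- the domain in the time-frequency plane -/
def Dom (q : P) : Set (ℝ × ℝ) := PsiH ⁻¹' Om q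

lemma isOpen_Dom (q : P) (hq : Small q) : IsOpen (Dom q) := (isOpen_Om q hq).preimage PsiH.continuous

lemma simply_Dom (q : P) (hq : Small q) : IsSimplyConnected (Dom q) :=
  PsiH.isSimplyConnected_preimage.2 (simply_Om q hq)

lemma volume_Dom (q : P) (hq : Small q) : 0 < volume (Dom q) ∧ volume (Dom q) < ⊤ := by
  rw [Dom, volume_Psi _ (isOpen_Om q hq).measurableSet]
  have h1 := volume_Om_pos q hq
  have h2 := volume_Om_lt q
  have h3 : 0 < ENNReal.ofReal (1 / π) := by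
    rw [ENNReal.ofReal_pos]; positivity
  exact ⟨ENNReal.mul_pos h3.ne' h1.ne', ENNReal.mul_lt_top ENNReal.ofReal_lt_top h2⟩

lemma disc_eq (R : ℝ) : disc R = PsiH ⁻¹' Metric.ball (0 : ℂ) (Real.sqrt π * |R|) := by
  ext w
  have hpi : 0 < Real.sqrt π := Real.sqrt_pos.2 Real.pi_pos
  simp only [disc, mem_ofPred_eq, mem_preimage, mem_ball_zero_iff]
  rw [PsiH_apply, norm_mul, Complex.norm_real, Real.norm_of_nonneg hpi.le,
    mul_lt_mul_iff_right₀ hpi, ← sq_lt_sq₀ (norm_nonneg _) (abs_nonneg _), sq_abs,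
    Complex.norm_add_mul_I, Real.sq_sqrt (by positivity)]

lemma not_disc_Dom (q : P) (hq : Small q) (R : ℝ) : ¬ (Dom q =ᵐ[volume] disc R) := by
  intro h
  apply not_disc q hq (Real.sqrt π * |R|)
  rw [disc_eq, Dom, ae_eq_set] at h
  rw [ae_eq_set]
  have hpos : ENNReal.ofReal (1 / π) ≠ 0 := by
    rw [Ne, ENNReal.ofReal_eq_zero, not_le]; positivity
  have hO := (isOpen_Om q hq).measurableSet
  have hB := (Metric.isOpen_ball (x := (0 : ℂ)) (ε := Real.sqrt π * |R|)).measurableSet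
  rw [← preimage_sdiff, ← preimage_sdiff, volume_Psi _ (hO.diff hB), volume_Psi _ (hB.diff hO)] at h
  exact ⟨(mul_eq_zero.1 h.1).resolve_left hpos, (mul_eq_zero.1 h.2).resolve_left hpos⟩

lemma memLp_h0 : MemLp (hermiteFn 0) 2 (volume : Measure ℝ) := by
  have e : hermiteFn 0 = fun t => (nc 0 : ℂ) * tst 0 t := by
    ext t; exact hermiteFn_zero t
  rw [e]
  exact (memLp_tst 0).const_mul _

lemma inner_tst_h0 (η : ℝ) : ⟪(memLp_tst η).toLp, memLp_h0.toLp⟫_ℂ =
    nc 0 * (c0 * cexp (-(π / 2) * η ^ 2)) := by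
  have h := integral_gau (-η)
  have e : (cexp (-(π / 2) * ((-η : ℝ) : ℂ) ^ 2)) = cexp (-(π / 2) * η ^ 2) := by
    congr 1; push_cast; ring
  rw [e] at h
  rw [← h, ← integral_const_mul, L2.inner_def]
  refine integral_congr_ae ?_
  filter_upwards [(memLp_tst η).coeFn_toLp, memLp_h0.coeFn_toLp] with t ht1 ht2
  rw [ht1, ht2, RCLike.inner_apply, hermiteFn_zero]
  unfold tst gau
  rw [← Complex.exp_conj, mul_assoc, ← Complex.exp_add]
  congr 2
  simp only [map_add, map_mul, map_neg, map_pow, Complex.conj_ofReal, Complex.conj_I,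
    Complex.conj_ofNat]
  push_cast
  ring

/-- `h_0` is an eigenfunction of the localization operator of the domain. -/
lemma eigen (q : P) (hq : Small q) (hF : F q = 0) (hb : b q = 0) (T : L2R →L[ℂ] L2R)
    (hT : IsLocOp 1 (Dom q) T) :
    ∃ c : ℂ, T memLp_h0.toLp = c • memLp_h0.toLp := by
  set c : ℂ := (KK * conj KK) * (1 / π) * (1 / π) * (π * (1 - cf 0 (Φ q))) / c0 with hc
  refine ⟨c, ?_⟩
  rw [← sub_eq_zero]
  refine total _ fun η => ?_
  rw [inner_sub_right, inner_smul_right, hT, inner_tst_h0]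
  have e : ∀ w : ℝ × ℝ, stft (hermiteFn 1) memLp_h0.toLp w *
      conj (stft (hermiteFn 1) (memLp_tst η).toLp w) =
      (nc 0 * (KK * conj KK) * cexp (-(π / 2) * η ^ 2) * (1 / π)) *
        (fun z : ℂ => z * (conj z - (-I * Real.sqrt π * η)) *
          DiscData.E (-I * Real.sqrt π * η) z) (PsiH w) := by
    intro w
    rw [stft_congr memLp_h0.coeFn_toLp, stft_congr (memLp_tst η).coeFn_toLp, prod_stft]
  have hi := integral_Psi (Om q) (isOpen_Om q hq).measurableSet
    (fun z : ℂ => z * (conj z - (-I * Real.sqrt π * η)) *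
          DiscData.E (-I * Real.sqrt π * η) z)
  rw [integral_Om_E q hq hF hb] at hi
  simp_rw [e]
  rw [integral_const_mul, Dom, hi, hc]
  have := c0_ne
  field_simp
  ring

/-- The scaled conformal map. -/
noncomputable def FF (q : P) (z : ℂ) : ℂ := (Real.sqrt π : ℂ)⁻¹ * (DD q).f z

lemma FF_diff (q : P) : DifferentiableOn ℂ (FF q) (Metric.ball 0 2) := by
  have h : DifferentiableOn ℂ (DD q).f (Metric.ball 0 2) := fun z hz =>
    ((DD q).hf z hz).differentiableAt.differentiableWithinAt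
  exact h.const_mul _

lemma FF_inj (q : P) (hq : Small q) : InjOn (FF q) (Metric.ball 0 2) := by
  intro z hz w hw h
  have hne : (Real.sqrt π : ℂ)⁻¹ ≠ 0 := inv_ne_zero (by exact_mod_cast sqrtpi_ne)
  exact f_inj q hq hz hw (mul_left_cancel₀ hne h)

lemma Dom_eq (q : P) : Dom q = {w : ℝ × ℝ | (w.1 : ℂ) + w.2 * I ∈ FF q '' Metric.ball 0 1} := by
  have hne : (Real.sqrt π : ℂ) ≠ 0 := by exact_mod_cast sqrtpi_ne
  ext w
  simp only [Dom, Om, mem_preimage, PsiH_apply, mem_image, mem_ofPred_eq, FF]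
  constructor
  · rintro ⟨z, hz, h⟩
    refine ⟨z, hz, ?_⟩
    rw [h, inv_mul_cancel_left₀ hne]
  · rintro ⟨z, hz, h⟩
    refine ⟨z, hz, ?_⟩
    rw [← h, mul_inv_cancel_left₀ hne]

/-- The counterexample. -/
theorem main : ∃ Ω : Set (ℝ × ℝ), IsOpen Ω ∧ IsSimplyConnected Ω ∧
    0 < volume Ω ∧ volume Ω < ⊤ ∧
    (∃ G : ℂ → ℂ, DifferentiableOn ℂ G (Metric.ball 0 2) ∧ InjOn G (Metric.ball 0 2) ∧
      Ω = {w : ℝ × ℝ | (w.1 : ℂ) + w.2 * I ∈ G '' Metric.ball 0 1}) ∧
    (∀ R : ℝ, ¬ (Ω =ᵐ[volume] disc R)) ∧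
    ∃ T : L2R →L[ℂ] L2R, IsLocOp 1 Ω T ∧
      ∃ u : L2R, u =ᵐ[volume] hermiteFn 0 ∧ ∃ c : ℂ, T u = c • u := by
  obtain ⟨v, s, x, hv, hs, hs', hx, hF, hb⟩ := exists_solution (1 / 40) (by norm_num)
  set q : P := ((v, s), x) with hq
  have hsm : Small q := ⟨hv, hs, hs', hx⟩
  obtain ⟨T, hT⟩ := exists_locOp (Dom q) (volume_Dom q hsm).2.ne
  exact ⟨Dom q, isOpen_Dom q hsm, simply_Dom q hsm, (volume_Dom q hsm).1, (volume_Dom q hsm).2,
    ⟨FF q, FF_diff q, FF_inj q hsm, Dom_eq q⟩,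
    not_disc_Dom q hsm, T, hT, memLp_h0.toLp, memLp_h0.coeFn_toLp, eigen q hsm hF hb T hT⟩

end Pool.Agent.HermiteLoc
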