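import Pool.Agent.HermiteLoc.Stft
set_option autoImplicit false

open scoped BigOperators Topology Real ComplexConjugate FourierTransform InnerProductSpace ENNReal
open Complex MeasureTheory Filter Set

namespace Pool.Agent.HermiteLoc

lemma continuous_tst (η : ℝ) : Continuous (tst η) := by unfold tst; fun_prop

lemma tst_norm (η t : ℝ) : ‖tst η t‖ = Real.exp (-π * t ^ 2) := by
  rw [tst, Complex.norm_exp]
  congr 1
  have e : (-π * t ^ 2 + 2 * π * I * η * t : ℂ) =
      ((-π * t ^ 2 : ℝ) : ℂ) + ((2 * π * η * t : ℝ) : ℂ) * I := by push_cast; ring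
  rw [e, Complex.add_re, Complex.ofReal_re, Complex.re_ofReal_mul, Complex.I_re, mul_zero, add_zero]

lemma memLp_tst (η : ℝ) : MemLp (tst η) 2 (volume : Measure ℝ) := by
  rw [memLp_two_iff_integrable_sq_norm (continuous_tst η).aestronglyMeasurable]
  refine (integrable_exp_neg_mul_sq (b := 2 * π) (by positivity)).congr ?_
  refine Eventually.of_forall fun t => ?_
  simp only
  rw [tst_norm, ← Real.exp_nat_mul]
  congr 1; push_cast; ring

lemma continuous_h1 : Continuous (hermiteFn 1) := by
  have : hermiteFn 1 = fun t : ℝ => (nc 1 * (-4 * π * t * cexp (-(π * t ^ 2))) : ℂ) := by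
    ext t; exact hermiteFn_one t
  rw [this]; fun_prop

lemma memLp_h1 : MemLp (hermiteFn 1) 2 (volume : Measure ℝ) := by
  rw [memLp_two_iff_integrable_sq_norm continuous_h1.aestronglyMeasurable]
  have h := (integrable_rpow_mul_exp_neg_mul_sq (b := 2 * π) (by positivity) (s := 2)
    (by norm_num)).const_mul ((nc 1 * (4 * π)) ^ 2)
  refine h.congr ?_
  refine Eventually.of_forall fun t => ?_
  simp only
  rw [hermiteFn_one]
  have e : (nc 1 * (-4 * π * t * cexp (-(π * t ^ 2))) : ℂ) =
      ((nc 1 * (-4 * π * t) * Real.exp (-(π * t ^ 2)) : ℝ) : ℂ) := by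
    push_cast; ring
  rw [e, Complex.norm_real, Real.norm_eq_abs, sq_abs]
  have e2 : Real.exp (-(2 * π) * t ^ 2) = Real.exp (-(π * t ^ 2)) ^ 2 := by
    rw [← Real.exp_nat_mul]; congr 1; push_cast; ring
  rw [e2, Real.rpow_two]
  ring

lemma tfShift_norm (w : ℝ × ℝ) (g : ℝ → ℂ) (t : ℝ) : ‖tfShift w g t‖ = ‖g (t - w.1)‖ := by
  rw [tfShift, norm_mul]
  have : ‖cexp (2 * π * I * w.2 * t)‖ = 1 := by
    have h := Complex.norm_exp_ofReal_mul_I (2 * π * w.2 * t)
    rw [← h]
    congr 2
    push_cast; ring
  rw [this, one_mul]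

lemma continuous_tfShift {g : ℝ → ℂ} (hg : Continuous g) (w : ℝ × ℝ) : Continuous (tfShift w g) := by
  unfold tfShift
  fun_prop

lemma mp_sub (x : ℝ) : MeasurePreserving (fun t : ℝ => t - x) volume volume :=
  measurePreserving_sub_right volume x

lemma memLp_tf {g : ℝ → ℂ} (hgc : Continuous g) (hg : MemLp g 2 (volume : Measure ℝ)) (w : ℝ × ℝ) :
    MemLp (tfShift w g) 2 (volume : Measure ℝ) := by
  have h := hg.comp_measurePreserving (mp_sub w.1)
  refine h.of_le (continuous_tfShift hgc w).aestronglyMeasurable ?_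
  exact Eventually.of_forall fun t => (tfShift_norm w g t).le

lemma norm_tf {g : ℝ → ℂ} (hgc : Continuous g) (hg : MemLp g 2 (volume : Measure ℝ)) (w : ℝ × ℝ) :
    ‖(memLp_tf hgc hg w).toLp‖ = ‖hg.toLp‖ := by
  rw [Lp.norm_toLp, Lp.norm_toLp]
  congr 1
  have h := eLpNorm_comp_measurePreserving (p := 2) hg.aestronglyMeasurable (mp_sub w.1)
  rw [← h]
  refine eLpNorm_congr_norm_ae (Eventually.of_forall fun t => ?_)
  exact tfShift_norm w g t

/-- the window of order one -/
noncomputable abbrev h1 : ℝ → ℂ := hermiteFn 1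

/-- the shifted window as an element of `L²` -/
noncomputable def tf (w : ℝ × ℝ) : L2R := (memLp_tf continuous_h1 memLp_h1 w).toLp

lemma stft_eq (f : L2R) (w : ℝ × ℝ) : stft h1 f w = ⟪tf w, f⟫_ℂ := by
  rw [L2.inner_def, stft]
  refine integral_congr_ae ?_
  filter_upwards [(memLp_tf continuous_h1 memLp_h1 w).coeFn_toLp] with t ht
  rw [tf, ht, RCLike.inner_apply]

lemma stft_bound (f : L2R) (w : ℝ × ℝ) : ‖stft h1 f w‖ ≤ ‖memLp_h1.toLp‖ * ‖f‖ := by
  rw [stft_eq]
  refine (norm_inner_le_norm _ _).trans ?_
  rw [tf, norm_tf continuous_h1 memLp_h1]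

lemma stft_meas (f : L2R) : StronglyMeasurable fun w : ℝ × ℝ => stft h1 f w := by
  unfold stft
  refine StronglyMeasurable.integral_prod_right (f := fun (w : ℝ × ℝ) (t : ℝ) =>
    f t * conj (tfShift w h1 t)) ?_
  refine StronglyMeasurable.mul ?_ ?_
  · exact (Lp.stronglyMeasurable f).comp_measurable measurable_snd
  · refine Continuous.stronglyMeasurable ?_
    have := continuous_h1
    unfold tfShift
    fun_prop

variable (Ω : Set (ℝ × ℝ))

/-- the integrand of the sesquilinear form -/
lemma form_integrable (hΩ : volume Ω ≠ ⊤) (f g : L2R) :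
    IntegrableOn (fun w => conj (stft h1 f w) * stft h1 g w) Ω := by
  have hfin : IsFiniteMeasure (volume.restrict Ω) := ⟨by
    rw [Measure.restrict_apply_univ]; exact hΩ.lt_top⟩
  refine Integrable.of_bound (C := (‖memLp_h1.toLp‖ * ‖f‖) * (‖memLp_h1.toLp‖ * ‖g‖)) ?_ ?_
  · exact ((continuous_conj.comp_stronglyMeasurable (stft_meas f)).mul (stft_meas g)).aestronglyMeasurable
  · refine Eventually.of_forall fun w => ?_
    rw [norm_mul, RCLike.norm_conj]
    exact mul_le_mul (stft_bound f w) (stft_bound g w) (norm_nonneg _) (by positivity)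

/-- the sesquilinear form -/
noncomputable def form (hΩ : volume Ω ≠ ⊤) : L2R →L⋆[ℂ] L2R →L[ℂ] ℂ :=
  LinearMap.mkContinuous₂
    (LinearMap.mk₂'ₛₗ (starRingEnd ℂ) (RingHom.id ℂ)
      (fun f g => ∫ w in Ω, conj (stft h1 f w) * stft h1 g w)
      (by
        intro f f' g
        rw [← integral_add (form_integrable Ω hΩ f g) (form_integrable Ω hΩ f' g)]
        refine integral_congr_ae (Eventually.of_forall fun w => ?_)
        simp only [stft_eq, inner_add_right, map_add]
        ring)
      (by
        intro c f g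
        rw [smul_eq_mul, ← integral_const_mul]
        refine integral_congr_ae (Eventually.of_forall fun w => ?_)
        simp only [stft_eq, inner_smul_right, map_mul]
        ring)
      (by
        intro f g g'
        rw [← integral_add (form_integrable Ω hΩ f g) (form_integrable Ω hΩ f g')]
        refine integral_congr_ae (Eventually.of_forall fun w => ?_)
        simp only [stft_eq, inner_add_right]
        ring)
      (by
        intro c f g
        rw [RingHom.id_apply, smul_eq_mul, ← integral_const_mul]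
        refine integral_congr_ae (Eventually.of_forall fun w => ?_)
        simp only [stft_eq, inner_smul_right]
        ring))
    (‖memLp_h1.toLp‖ * ‖memLp_h1.toLp‖ * (volume Ω).toReal)
    (by
      intro f g
      have hfin : IsFiniteMeasure (volume.restrict Ω) := ⟨by
        rw [Measure.restrict_apply_univ]; exact hΩ.lt_top⟩
      change ‖∫ w in Ω, conj (stft h1 f w) * stft h1 g w‖ ≤ _
      have h := norm_integral_le_of_norm_le_const (μ := volume.restrict Ω)
        (f := fun w => conj (stft h1 f w) * stft h1 g w)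
        (C := (‖memLp_h1.toLp‖ * ‖f‖) * (‖memLp_h1.toLp‖ * ‖g‖))
        (Eventually.of_forall fun w => by
          rw [norm_mul, RCLike.norm_conj]
          exact mul_le_mul (stft_bound f w) (stft_bound g w) (norm_nonneg _) (by positivity))
      refine h.trans (le_of_eq ?_)
      rw [Measure.real, Measure.restrict_apply_univ]
      ring)

/-- existence of the localization operator -/
lemma exists_locOp (hΩ : volume Ω ≠ ⊤) : ∃ T : L2R →L[ℂ] L2R, IsLocOp 1 Ω T := by
  refine ⟨InnerProductSpace.continuousLinearMapOfBilin (form Ω hΩ), ?_⟩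
  intro f g
  rw [← inner_conj_symm, InnerProductSpace.continuousLinearMapOfBilin_apply]
  change conj (∫ w in Ω, conj (stft h1 f w) * stft h1 g w) = _
  rw [← integral_conj]
  refine integral_congr_ae (Eventually.of_forall fun w => ?_)
  simp

/-- The modulated Gaussians are total in `L²`. -/
lemma total (u : L2R) (h : ∀ η : ℝ, ⟪(memLp_tst η).toLp, u⟫_ℂ = 0) : u = 0 := by
  set U : ℝ → ℂ := fun t => conj (tst 0 t) * u t with hU
  have hint : Integrable U := by
    have := L2.integrable_inner (𝕜 := ℂ) (memLp_tst 0).toLp u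
    refine this.congr ?_
    filter_upwards [(memLp_tst 0).coeFn_toLp] with t ht
    rw [ht, RCLike.inner_apply, hU]
    ring
  have hF : ∀ ξ : ℝ, 𝓕 U ξ = 0 := by
    intro ξ
    rw [Real.fourier_real_eq_integral_exp_smul, ← h ξ, L2.inner_def]
    refine integral_congr_ae ?_
    filter_upwards [(memLp_tst ξ).coeFn_toLp] with t ht
    rw [ht, RCLike.inner_apply, hU, smul_eq_mul]
    simp only
    unfold tst
    rw [← Complex.exp_conj, ← Complex.exp_conj, mul_comm (u t), ← mul_assoc, ← Complex.exp_add]
    congr 2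
    simp only [map_add, map_mul, map_neg, map_pow, Complex.conj_ofReal, Complex.conj_I,
      Complex.conj_ofNat]
    push_cast
    ring
  have h0 := ft_inj U hint hF
  refine Lp.ext ?_
  filter_upwards [h0, Lp.coeFn_zero ℂ 2 (volume : Measure ℝ)] with t ht ht2
  rw [ht2]
  have : conj (tst 0 t) ≠ 0 := by
    rw [Ne, map_eq_zero]
    unfold tst
    exact Complex.exp_ne_zero _
  exact (mul_eq_zero.1 ht).resolve_left this

end Pool.Agent.HermiteLoc
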