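import Pool.Agent.HermiteLoc.Bifurc
set_option autoImplicit false

open scoped BigOperators Topology
open Complex MeasureTheory Filter

namespace Pool.Agent.HermiteLoc

lemma map_l1map {G H : Type*} [NormedAddCommGroup G] [NormedSpace ℝ G] [CompleteSpace G]
    [NormedAddCommGroup H] [NormedSpace ℝ H]
    (L : G →L[ℝ] H) (e : ℕ → G) (C : ℝ) (h : ∀ k, ‖e k‖ ≤ C) (x : L1) :
    L (l1map e C h x) = ∑' k, x k • L (e k) := by
  rw [l1map_apply, L.map_tsum (l1map_summable e C h x)]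
  simp

lemma cf_V (m : ℤ) (hm : m < 0) (x : L1) : cf m (V x) = 0 := by
  rw [V, map_l1map]
  have : ∀ k : ℕ, x k • cf m (cc k • T (k + 2 : ℤ)) = 0 := fun k => by
    rw [map_smul, cf_T, if_neg (by omega)]; simp
  simp only [this, tsum_zero]

lemma cf_DV (m : ℤ) (hm : m < 0) (x : L1) : cf m (DV x) = 0 := by
  rw [DV, map_l1map]
  have : ∀ k : ℕ, x k • cf m (((k + 2) * cc k) • T (k + 2 : ℤ)) = 0 := fun k => by
    rw [map_smul, cf_T, if_neg (by omega)]; simp
  simp only [this, tsum_zero]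

lemma cf_Vs (k : ℕ) (x : L1) : cf (-(k + 2 : ℤ)) (Vs x) = x k * cc k := by
  rw [Vs, map_l1map, tsum_eq_single k]
  · rw [map_smul, cf_T, if_pos rfl]; simp
  · intro j hj
    rw [map_smul, cf_T, if_neg (by omega)]; simp

lemma cf_DVs (k : ℕ) (x : L1) : cf (-(k + 2 : ℤ)) (DVs x) = x k * ((k + 2) * cc k) := by
  rw [DVs, map_l1map, tsum_eq_single k]
  · rw [map_smul, cf_T, if_pos rfl]; simp
  · intro j hj
    rw [map_smul, cf_T, if_neg (by omega)]; simp

lemma cf_neg_one_Vs (x : L1) : cf (-1) (Vs x) = 0 := by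
  rw [Vs, map_l1map]
  have : ∀ k : ℕ, x k • cf (-1) (cc k • T (-(k + 2 : ℤ))) = 0 := fun k => by
    rw [map_smul, cf_T, if_neg (by omega)]; simp
  simp only [this, tsum_zero]

lemma cf_neg_one_DVs (x : L1) : cf (-1) (DVs x) = 0 := by
  rw [DVs, map_l1map]
  have : ∀ k : ℕ, x k • cf (-1) (((k + 2) * cc k) • T (-(k + 2 : ℤ))) = 0 := fun k => by
    rw [map_smul, cf_T, if_neg (by omega)]; simp
  simp only [this, tsum_zero]

lemma cf_one (m : ℤ) (hm : m < 0) : cf m (1 : WA) = 0 := by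
  rw [← T_zero, cf_T, if_neg (by omega)]

lemma cf_T_one (m : ℤ) (hm : m < 0) : cf m (T 1) = 0 := by
  rw [cf_T, if_neg (by omega)]

lemma cf_T_neg_one (k : ℕ) : cf (-(k + 2 : ℤ)) (T (-1)) = 0 := by
  rw [cf_T, if_neg (by omega)]

lemma negProj_lin (δ : P) : negProj ((-(1 : ℝ)) • W δ + Dv δ + (1 : ℝ) • Dvs δ) = δ.2 := by
  apply lp.ext
  funext k
  rw [negProj_apply, W_apply, Dv_apply, Dvs_apply]
  simp only [map_add, map_smul, smul_eq_mul, cf_one _ (show -(k + 2 : ℤ) < 0 by omega),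
    cf_T_one _ (show -(k + 2 : ℤ) < 0 by omega), cf_T_neg_one, cf_V _ (show -(k + 2 : ℤ) < 0 by omega),
    cf_DV _ (show -(k + 2 : ℤ) < 0 by omega), cf_Vs, cf_DVs]
  have h := cc_mul k
  have h2 : (2 : ℝ) ^ (k + 2) * (δ.2 k * ((k + 2) * cc k) - δ.2 k * cc k) = δ.2 k := by
    have h3 : (2 : ℝ) ^ (k + 2) * (δ.2 k * ((k + 2) * cc k) - δ.2 k * cc k)
      = δ.2 k * (k + 1) * (cc k * 2 ^ (k + 2)) := by ring
    rw [h3, h]
    field_simp
  linear_combination h2

/-- the equations with indices `-2, -3, ...` -/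
noncomputable def F (p : P) : L1 := negProj (Φ p)

/-- the equation with index `-1` -/
noncomputable def b (p : P) : ℝ := cf (-1) (Φ p)

lemma negProj_one : negProj (1 : WA) = 0 := by
  apply lp.ext
  funext k
  rw [negProj_apply, cf_one _ (by omega)]
  simp

lemma F_base (v : ℝ) : F ((v, 0), 0) = 0 := by
  rw [F, Φ_base, map_smul, negProj_one, smul_zero]

lemma b_base (v : ℝ) : b ((v, 0), 0) = 0 := by
  rw [b, Φ_base, map_smul, cf_one _ (by omega), smul_zero]

lemma F_strict : HasStrictFDerivAt F (Real.exp (-1) • ContinuousLinearMap.snd ℝ (ℝ × ℝ) L1)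
    ((0, 0), 0) := by
  have h := negProj.hasStrictFDerivAt.comp ((0, 0), 0) (Φ_hasStrictFDerivAt 0)
  refine h.congr_fderiv ?_
  refine ContinuousLinearMap.ext fun δ => ?_
  have h2 := negProj_lin δ
  have e0 : Real.exp (2 * 0) = 1 := by simp
  change negProj (Real.exp (-Real.exp (2 * 0)) • (-(Real.exp (2 * 0) ^ 2) • W δ + Dv δ +
    Real.exp (2 * 0) • Dvs δ)) = Real.exp (-1) • δ.2
  rw [e0, one_pow, map_smul, h2]

lemma b_deriv (v : ℝ) : HasFDerivAt b
    ((Real.exp (-Real.exp (2 * v)) * (Real.exp (2 * v) * (1 - Real.exp (2 * v)))) •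
      ((ContinuousLinearMap.snd ℝ ℝ ℝ).comp (ContinuousLinearMap.fst ℝ (ℝ × ℝ) L1)))
    ((v, 0), 0) := by
  have h := (cf (-1)).hasStrictFDerivAt.comp ((v, 0), 0) (Φ_hasStrictFDerivAt v)
  refine (h.congr_fderiv ?_).hasFDerivAt
  refine ContinuousLinearMap.ext fun δ => ?_
  change cf (-1) (Real.exp (-Real.exp (2 * v)) • (-(Real.exp (2 * v) ^ 2) • W δ + Dv δ +
    Real.exp (2 * v) • Dvs δ)) =
    (Real.exp (-Real.exp (2 * v)) * (Real.exp (2 * v) * (1 - Real.exp (2 * v)))) • δ.1.2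
  rw [W_apply, Dv_apply, Dvs_apply]
  simp only [map_add, map_smul, smul_eq_mul, cf_one _ (show (-1 : ℤ) < 0 by omega),
    cf_T_one _ (show (-1 : ℤ) < 0 by omega), cf_V _ (show (-1 : ℤ) < 0 by omega),
    cf_DV _ (show (-1 : ℤ) < 0 by omega), cf_neg_one_Vs, cf_neg_one_DVs]
  rw [cf_T, if_pos rfl]
  ring

lemma continuous_Φ : Continuous Φ := by
  unfold Φ
  let _ : NormedAlgebra ℚ WA := NormedAlgebra.restrictScalars ℚ ℝ WA
  have h : Continuous (NormedSpace.exp : WA → WA) := NormedSpace.exp_continuous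
  have h1 : Continuous fun p : P => NormedSpace.exp (W p) := h.comp W.continuous
  have h2 : Continuous fun p : P => NormedSpace.exp (-NormedSpace.exp (W p)) := h.comp h1.neg
  exact h2.mul (((continuous_const.add h1).add Dv.continuous).add (h1.mul Dvs.continuous))

lemma continuous_b : Continuous b := (cf (-1)).continuous.comp continuous_Φ

lemma dist_zero_right' (v s : ℝ) : dist (v, s) ((0 : ℝ), (0 : ℝ)) = max |v| |s| := by
  rw [Prod.dist_eq]; simp

/-- Existence of nontrivial small solutions. -/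
theorem exists_solution (ε : ℝ) (hε : 0 < ε) :
    ∃ v s : ℝ, ∃ x : L1, |v| < ε ∧ 0 < s ∧ s < ε ∧ ‖x‖ ≤ ε * s ∧
      F ((v, s), x) = 0 ∧ b ((v, s), x) = 0 := by
  have hinr : ((Real.exp (-1) • ContinuousLinearMap.snd ℝ (ℝ × ℝ) L1) ∘L .inr ℝ (ℝ × ℝ) L1) =
      Real.exp (-1) • ContinuousLinearMap.id ℝ L1 := by
    refine ContinuousLinearMap.ext fun δ => ?_
    simp
  have hinv : ((Real.exp (-1) • ContinuousLinearMap.snd ℝ (ℝ × ℝ) L1) ∘L
      .inr ℝ (ℝ × ℝ) L1).IsInvertible := by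
    rw [hinr]
    refine ⟨ContinuousLinearEquiv.smulLeft (Units.mk0 (Real.exp (-1)) (Real.exp_pos _).ne'), ?_⟩
    refine ContinuousLinearMap.ext fun δ => ?_
    simp [Units.smul_def]
  set ψ := F_strict.implicitFunctionOfProdDomain hinv with hψ
  have hψd := F_strict.hasStrictFDerivAt_implicitFunctionOfProdDomain hinv
  have hinl : ((Real.exp (-1) • ContinuousLinearMap.snd ℝ (ℝ × ℝ) L1) ∘L .inl ℝ (ℝ × ℝ) L1) = 0 := by
    refine ContinuousLinearMap.ext fun δ => ?_
    simp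
  rw [hinl, ContinuousLinearMap.comp_zero] at hψd
  rw [← hψ] at hψd
  have hiff := F_strict.eventually_apply_eq_iff_implicitFunctionOfProdDomain hinv
  have hsol := F_strict.eventually_apply_implicitFunctionOfProdDomain hinv
  rw [← hψ] at hiff hsol
  rw [F_base] at hiff hsol
  -- the Lipschitz estimate
  set c : ℝ := min ε 1 with hc
  have hcpos : 0 < c := lt_min hε one_pos
  have hlip : ∀ᶠ p : (ℝ × ℝ) × (ℝ × ℝ) in 𝓝 ((0, 0), (0, 0)),
      ‖ψ p.1 - ψ p.2‖ ≤ c * ‖p.1 - p.2‖ := by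
    have h := hψd.isLittleO.bound hcpos
    filter_upwards [h] with p hp
    simpa using hp
  have hzero : ∀ᶠ v : ℝ in 𝓝 0, ψ (v, 0) = 0 := by
    have ht : Tendsto (fun v : ℝ => (((v, 0), 0) : P)) (𝓝 0) (𝓝 ((0, 0), 0)) := by
      have : Continuous (fun v : ℝ => (((v, 0), 0) : P)) := by fun_prop
      exact this.tendsto 0
    filter_upwards [ht.eventually hiff] with v hv
    exact hv.1 (F_base v)
  obtain ⟨δ1, hδ1, h1⟩ := Metric.eventually_nhds_iff.1 hlip
  obtain ⟨δ2, hδ2, h2⟩ := Metric.eventually_nhds_iff.1 hzero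
  obtain ⟨δ3, hδ3, h3⟩ := Metric.eventually_nhds_iff.1 hsol
  set δ : ℝ := min δ1 (min δ2 (min δ3 ε)) with hδ
  have hδpos : 0 < δ := by positivity
  have hδ1' : δ ≤ δ1 := min_le_left _ _
  have hδ2' : δ ≤ δ2 := (min_le_right _ _).trans (min_le_left _ _)
  have hδ3' : δ ≤ δ3 := (min_le_right _ _).trans ((min_le_right _ _).trans (min_le_left _ _))
  have hδ4' : δ ≤ ε := (min_le_right _ _).trans ((min_le_right _ _).trans (min_le_right _ _))
  have hdist : ∀ v s : ℝ, |v| < δ → |s| < δ → dist (v, s) ((0 : ℝ), (0 : ℝ)) < δ := by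
    intro v s hv hs
    rw [dist_zero_right' v s]
    exact max_lt hv hs
  have hL : ∀ v s v' s' : ℝ, |v| < δ → |s| < δ → |v'| < δ → |s'| < δ →
      ‖ψ (v, s) - ψ (v', s')‖ ≤ c * ‖((v, s) : ℝ × ℝ) - (v', s')‖ := by
    intro v s v' s' hv hs hv' hs'
    refine h1 (y := ((v, s), (v', s'))) ?_
    rw [Prod.dist_eq]
    exact max_lt ((hdist v s hv hs).trans_le hδ1') ((hdist v' s' hv' hs').trans_le hδ1')
  have hZ : ∀ v : ℝ, |v| < δ → ψ (v, 0) = 0 := by
    intro v hv
    refine h2 ?_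
    rw [Real.dist_eq, sub_zero]; exact hv.trans_le hδ2'
  have hS : ∀ v s : ℝ, |v| < δ → |s| < δ → F ((v, s), ψ (v, s)) = 0 := by
    intro v s hv hs
    exact h3 ((hdist v s hv hs).trans_le hδ3')
  have hB : ∀ v s : ℝ, |v| < δ → |s| < δ → ‖ψ (v, s)‖ ≤ c * |s| := by
    intro v s hv hs
    have h := hL v s v 0 hv hs hv (by simpa using hδpos)
    rw [hZ v hv, sub_zero] at h
    simpa using h
  have hsign : ∀ v : ℝ, |v| < δ → v ≠ 0 →
      ∀ᶠ s : ℝ in 𝓝 0, 0 < s → 0 < -(v * b ((v, s), ψ (v, s))) := by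
    intro v hv hv0
    set k : ℝ := Real.exp (-Real.exp (2 * v)) * (Real.exp (2 * v) * (1 - Real.exp (2 * v))) with hk
    have hvk : 0 < -(v * k) := by
      have h1 : 0 < -(v * (1 - Real.exp (2 * v))) := by
        rcases lt_or_gt_of_ne hv0 with h | h
        · have : Real.exp (2 * v) < 1 := by rw [Real.exp_lt_one_iff]; linarith
          nlinarith
        · have : 1 < Real.exp (2 * v) := by rw [Real.one_lt_exp_iff]; linarith
          nlinarith
      have h2 : -(v * k) = Real.exp (-Real.exp (2 * v)) * Real.exp (2 * v) *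
          (-(v * (1 - Real.exp (2 * v)))) := by rw [hk]; ring
      rw [h2]; positivity
    have hkpos : 0 < |k| := by
      rw [abs_pos]; intro h0
      rw [h0] at hvk
      simp at hvk
    have hlo := (b_deriv v).isLittleO.bound (c := |k| / 2) (by positivity)
    have htend : Tendsto (fun s : ℝ => (((v, s), ψ (v, s)) : P)) (𝓝 0) (𝓝 ((v, 0), 0)) := by
      have e1 : Tendsto (fun s : ℝ => ψ (v, s)) (𝓝 0) (𝓝 0) := by
        have hev : ∀ᶠ s : ℝ in 𝓝 0, ‖ψ (v, s)‖ ≤ c * |s| := by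
          filter_upwards [Metric.ball_mem_nhds (0 : ℝ) hδpos] with s hs
          exact hB v s hv (by simpa using hs)
        refine squeeze_zero_norm' hev ?_
        have : Continuous fun s : ℝ => c * |s| := by fun_prop
        simpa using this.tendsto 0
      have e2 : Tendsto (fun s : ℝ => ((v, s) : ℝ × ℝ)) (𝓝 0) (𝓝 (v, 0)) := by
        have : Continuous fun s : ℝ => ((v, s) : ℝ × ℝ) := by fun_prop
        exact this.tendsto 0
      exact e2.prodMk_nhds e1
    filter_upwards [htend.eventually hlo, Metric.ball_mem_nhds (0 : ℝ) hδpos] with s hs hsδ hspos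
    rw [b_base, sub_zero] at hs
    have hsd : |s| < δ := by simpa using hsδ
    have hn : ‖((((v, s), ψ (v, s)) : P) - ((v, 0), 0))‖ ≤ s := by
      have e : ((((v, s), ψ (v, s)) : P) - ((v, 0), 0)) = ((0, s), ψ (v, s)) := by
        ext <;> simp
      rw [e, Prod.norm_def, Prod.norm_def]
      refine max_le ?_ ?_
      · simp [abs_of_pos hspos, hspos.le]
      · have := hB v s hv hsd
        rw [abs_of_pos hspos] at this
        have hc1 : c ≤ 1 := min_le_right _ _
        nlinarith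
    have hs' : |b ((v, s), ψ (v, s)) - k * s| ≤ |k| / 2 * s := by
      have h3 := hs.trans (mul_le_mul_of_nonneg_left hn (by positivity))
      simpa [hk] using h3
    have h4 : v * b ((v, s), ψ (v, s)) ≤ v * k * s + |v| * (|k| / 2 * s) := by
      have h5 : v * (b ((v, s), ψ (v, s)) - k * s) ≤ |v| * (|k| / 2 * s) := by
        refine (le_abs_self _).trans ?_
        rw [abs_mul]
        exact mul_le_mul_of_nonneg_left hs' (abs_nonneg _)
      linarith
    have h6 : |v| * |k| = -(v * k) := by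
      rw [← abs_mul, abs_of_neg (by linarith)]
    have h7 : v * k * s + |v| * (|k| / 2 * s) = -(-(v * k)) * s + (-(v * k)) / 2 * s := by
      linear_combination (s / 2) * h6
    nlinarith
  -- choose parameters
  set v1 : ℝ := δ / 2 with hv1
  have hv1pos : 0 < v1 := by positivity
  have hv1δ : |v1| < δ := by rw [abs_of_pos hv1pos]; linarith
  have hv1δ' : |(-v1)| < δ := by rw [abs_neg]; exact hv1δ
  have hev := (hsign v1 hv1δ hv1pos.ne').and ((hsign (-v1) hv1δ' (by linarith)).and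
    (Metric.ball_mem_nhds (0 : ℝ) hδpos))
  obtain ⟨η, hη, hηs⟩ := Metric.eventually_nhds_iff.1 hev
  set s : ℝ := min η δ / 2 with hsdef
  have hspos : 0 < s := by positivity
  have hsη : dist s 0 < η := by
    rw [Real.dist_eq, sub_zero, abs_of_pos hspos]
    have : min η δ ≤ η := min_le_left _ _
    linarith
  have hsδ : |s| < δ := by
    rw [abs_of_pos hspos]
    have : min η δ ≤ δ := min_le_right _ _
    linarith
  obtain ⟨hs1, hs2, -⟩ := hηs hsη
  have hs1 := hs1 hspos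
  have hs2 := hs2 hspos
  have hb1 : b ((v1, s), ψ (v1, s)) < 0 := by
    by_contra hcon
    push Not at hcon
    nlinarith
  have hb2 : 0 < b ((-v1, s), ψ (-v1, s)) := by
    by_contra hcon
    push Not at hcon
    nlinarith
  have hcont : ContinuousOn (fun v : ℝ => b ((v, s), ψ (v, s))) (Set.Icc (-v1) v1) := by
    refine continuous_b.comp_continuousOn ?_
    refine ContinuousOn.prodMk (by fun_prop) ?_
    intro v hv
    have hvδ : |v| < δ := lt_of_le_of_lt (abs_le.2 hv) (by linarith)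
    rw [Metric.continuousWithinAt_iff]
    intro e he
    refine ⟨e, he, ?_⟩
    intro v' hv' hvv'
    have hvδ' : |v'| < δ := lt_of_le_of_lt (abs_le.2 hv') (by linarith)
    have h := hL v' s v s hvδ' hsδ hvδ hsδ
    rw [dist_eq_norm]
    refine h.trans_lt ?_
    have hc1 : c ≤ 1 := min_le_right _ _
    have e1 : ‖((v', s) : ℝ × ℝ) - (v, s)‖ = |v' - v| := by
      simp
    rw [e1]
    rw [Real.dist_eq] at hvv'
    have := abs_nonneg (v' - v)
    nlinarith
  obtain ⟨v, hv, hv0⟩ : (0 : ℝ) ∈ (fun v : ℝ => b ((v, s), ψ (v, s))) '' Set.Icc (-v1) v1 :=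
    intermediate_value_Icc' (by linarith) hcont ⟨hb1.le, hb2.le⟩
  have hvδ : |v| < δ := lt_of_le_of_lt (abs_le.2 hv) (by linarith)
  refine ⟨v, s, ψ (v, s), hvδ.trans_le hδ4', hspos, ?_, ?_, hS v s hvδ hsδ, hv0⟩
  · rw [abs_of_pos hspos] at hsδ
    exact hsδ.trans_le hδ4'
  · have h := hB v s hvδ hsδ
    rw [abs_of_pos hspos] at h
    exact h.trans (mul_le_mul_of_nonneg_right (min_le_left _ _) hspos.le)

end Pool.Agent.HermiteLoc
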