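import Pool.Agent.HermiteLoc.Defs
set_option autoImplicit false

open scoped BigOperators Topology Real ComplexConjugate FourierTransform SchwartzMap InnerProductSpace
open Complex MeasureTheory Filter Set

namespace Pool.Agent.HermiteLoc

/-- Injectivity of the Fourier transform on integrable functions. -/
lemma ft_inj (U : ℝ → ℂ) (hU : Integrable U) (h : ∀ ξ : ℝ, 𝓕 U ξ = 0) :
    ∀ᵐ t : ℝ, U t = 0 := by
  refine ae_eq_zero_of_integral_contDiff_smul_eq_zero hU.locallyIntegrable fun g hg hgc => ?_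
  set G : 𝓢(ℝ, ℂ) := HasCompactSupport.toSchwartzMap (f := fun x => (g x : ℂ))
    (hgc.comp_left (g := fun x : ℝ => (x : ℂ)) (by simp)) (Complex.ofRealCLM.contDiff.comp hg) with hG
  set ψ : 𝓢(ℝ, ℂ) := 𝓕⁻ G with hψ
  have hψG : 𝓕 ψ = G := by rw [hψ]; simp
  have key := VectorFourier.integral_fourierIntegral_smul_eq_flip (L := innerₗ ℝ)
    Real.continuous_fourierChar continuous_inner (ψ.integrable (μ := volume)) hU
  have e1 : ∀ x : ℝ, g x • U x = VectorFourier.fourierIntegral 𝐞 volume (innerₗ ℝ) ψ x • U x := by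
    intro x
    have h1 : VectorFourier.fourierIntegral 𝐞 volume (innerₗ ℝ) ψ x = (𝓕 ψ) x := rfl
    rw [h1, hψG]
    simp [hG]
  simp_rw [e1]
  rw [key]
  have e2 : ∀ x : ℝ, VectorFourier.fourierIntegral 𝐞 volume (innerₗ ℝ).flip U x = 0 := by
    intro x
    have : VectorFourier.fourierIntegral 𝐞 volume (innerₗ ℝ).flip U x = 𝓕 U x := by
      simp [Real.fourier_eq, VectorFourier.fourierIntegral]
    rw [this, h]
  have e3 : (fun x : ℝ => ψ x • VectorFourier.fourierIntegral 𝐞 volume (innerₗ ℝ).flip U x) =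
      fun _ => 0 := by
    ext x; rw [e2, smul_zero]
  rw [e3, integral_zero]

/-- the modulated Gaussian with exponent `-2 π s² + 2 π i ν s` -/
noncomputable def gau (ν s : ℝ) : ℂ := cexp (-2 * π * s ^ 2 + 2 * π * I * ν * s)

/-- the value of a Gaussian integral -/
noncomputable def c0 : ℂ := (1 / 2 : ℂ) ^ (1 / 2 : ℂ)

lemma c0_ne : c0 ≠ 0 := by
  unfold c0
  rw [Complex.cpow_ne_zero_iff]
  left; norm_num

lemma integral_gau (ν : ℝ) : ∫ s : ℝ, gau ν s = c0 * cexp (-(π / 2) * ν ^ 2) := by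
  have hb : ((-2 * π : ℝ) : ℂ).re < 0 := by
    rw [Complex.ofReal_re]; nlinarith [Real.pi_pos]
  have h := integral_cexp_quadratic hb (2 * π * I * ν) 0
  have e : ∀ s : ℝ, gau ν s = cexp (((-2 * π : ℝ) : ℂ) * s ^ 2 + (2 * π * I * ν) * s + 0) := by
    intro s; unfold gau; push_cast; ring_nf
  simp_rw [e]
  rw [h]
  have hπ : (π : ℂ) ≠ 0 := by exact_mod_cast Real.pi_ne_zero
  congr 1
  · unfold c0
    congr 1
    push_cast
    field_simp
  · congr 1
    push_cast
    have hI : I ^ 2 = -1 := Complex.I_sq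
    field_simp
    linear_combination (4 * (π : ℂ) * (ν : ℂ) ^ 2) * hI

lemma gau_norm (ν s : ℝ) : ‖gau ν s‖ = Real.exp (-(2 * π) * s ^ 2) := by
  rw [gau, Complex.norm_exp]
  congr 1
  have e : (-2 * π * s ^ 2 + 2 * π * I * ν * s : ℂ) =
      ((-(2 * π) * s ^ 2 : ℝ) : ℂ) + ((2 * π * ν * s : ℝ) : ℂ) * I := by push_cast; ring
  rw [e, Complex.add_re, Complex.ofReal_re, Complex.re_ofReal_mul, Complex.I_re, mul_zero, add_zero]

lemma continuous_gau (ν : ℝ) : Continuous (gau ν) := by unfold gau; fun_prop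

lemma integrable_gau (ν : ℝ) : Integrable (gau ν) := by
  refine (integrable_exp_neg_mul_sq (b := 2 * π) (by positivity)).mono'
    (continuous_gau ν).aestronglyMeasurable ?_
  exact Eventually.of_forall fun s => (gau_norm ν s).le

lemma integrable_mul_gau (ν : ℝ) : Integrable fun s : ℝ => (s : ℂ) * gau ν s := by
  refine (integrable_mul_exp_neg_mul_sq (b := 2 * π) (by positivity)).norm.mono'
    (Continuous.aestronglyMeasurable (by have := continuous_gau ν; fun_prop)) ?_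
  refine Eventually.of_forall fun s => ?_
  rw [norm_mul, gau_norm, norm_mul, Complex.norm_real, Real.norm_eq_abs, Real.norm_eq_abs]
  exact mul_le_mul_of_nonneg_left (le_abs_self _) (abs_nonneg _)

lemma hasDerivAt_gau (ν s : ℝ) :
    HasDerivAt (gau ν) ((-4 * π) * (s * gau ν s) + (2 * π * I * ν) * gau ν s) s := by
  have hs : HasDerivAt (fun s : ℝ => (s : ℂ)) 1 s := Complex.ofRealCLM.hasDerivAt
  have h1 : HasDerivAt (fun s : ℝ => (-2 * π * (s : ℂ) ^ 2 + 2 * π * I * ν * s : ℂ))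
      (-2 * π * (2 * s) + 2 * π * I * ν) s := by
    have h2 := ((hs.pow 2).const_mul (-2 * π : ℂ)).add (hs.const_mul (2 * π * I * ν : ℂ))
    refine h2.congr_deriv ?_
    simp
  have h3 := h1.cexp
  refine h3.congr_deriv ?_
  unfold gau
  ring

lemma integral_mul_gau (ν : ℝ) :
    ∫ s : ℝ, (s : ℂ) * gau ν s = (I * ν / 2) * (c0 * cexp (-(π / 2) * ν ^ 2)) := by
  have h := integral_eq_zero_of_hasDerivAt_of_integrable (hasDerivAt_gau ν)
    (((integrable_mul_gau ν).const_mul (-4 * π : ℂ)).add ((integrable_gau ν).const_mul (2 * π * I * ν : ℂ)))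
    (integrable_gau ν)
  rw [integral_add ((integrable_mul_gau ν).const_mul (-4 * π : ℂ))
    ((integrable_gau ν).const_mul (2 * π * I * ν : ℂ)), integral_const_mul, integral_const_mul,
    integral_gau] at h
  have hπ : (π : ℂ) ≠ 0 := by exact_mod_cast Real.pi_ne_zero
  have h2 : (-4 * π : ℂ) * ((∫ s : ℝ, (s : ℂ) * gau ν s) -
      (I * ν / 2) * (c0 * cexp (-(π / 2) * ν ^ 2))) = 0 := by
    linear_combination h
  have h3 := (mul_eq_zero.1 h2).resolve_left (by
    intro h4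
    apply hπ
    linear_combination (-1 / 4 : ℂ) * h4)
  exact sub_eq_zero.1 h3

/-- the modulated Gaussian used as a test function -/
noncomputable def tst (η t : ℝ) : ℂ := cexp (-π * t ^ 2 + 2 * π * I * η * t)

lemma iter_zero (t : ℝ) : hermiteAux 0 t = Real.exp (-(π * t ^ 2)) := by
  unfold hermiteAux
  rw [iteratedDeriv_zero, ← Real.exp_add]
  congr 1; ring

lemma iter_one (t : ℝ) : hermiteAux 1 t = -4 * π * t * Real.exp (-(π * t ^ 2)) := by
  unfold hermiteAux
  have h : deriv (fun s : ℝ => Real.exp (-2 * π * s ^ 2)) t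
      = Real.exp (-2 * π * t ^ 2) * (-2 * π * (2 * t)) := by
    have h1 : HasDerivAt (fun s : ℝ => -2 * π * s ^ 2) (-2 * π * (2 * t)) t := by
      simpa using (hasDerivAt_pow 2 t).const_mul (-2 * π)
    exact h1.exp.deriv
  rw [iteratedDeriv_one, h, ← mul_assoc, ← Real.exp_add]
  rw [show π * t ^ 2 + -2 * π * t ^ 2 = -(π * t ^ 2) by ring]
  ring

/-- normalising constants -/
noncomputable def nc (n : ℕ) : ℝ := (Real.sqrt (∫ s, hermiteAux n s ^ 2))⁻¹

lemma hermiteFn_zero (t : ℝ) : hermiteFn 0 t = nc 0 * tst 0 t := by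
  unfold hermiteFn tst nc
  rw [iter_zero]
  push_cast
  ring_nf

lemma hermiteFn_one (t : ℝ) : hermiteFn 1 t = nc 1 * (-4 * π * t * cexp (-(π * t ^ 2))) := by
  unfold hermiteFn nc
  rw [iter_one]
  push_cast
  ring

lemma exp3 (A B C n k : ℂ) :
    cexp A * (cexp B * (n * (k * cexp C))) = (n * k) * cexp (A + B + C) := by
  rw [Complex.exp_add, Complex.exp_add]; ring

/-- The short-time Fourier transform of the test functions with window `h_1`. -/
lemma stft_tst (η : ℝ) (w : ℝ × ℝ) :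
    stft (hermiteFn 1) (tst η) w = (2 * π * nc 1 * c0) * ((w.1 + w.2 * I - I * η) *
      cexp (-(π / 2) * (w.1 ^ 2 + (η - w.2) ^ 2) + π * I * (η - w.2) * w.1)) := by
  unfold stft
  have e : ∀ t : ℝ, tst η t * conj (tfShift w (hermiteFn 1) t) =
      (fun s : ℝ => (-4 * π * nc 1 * cexp (-(π / 2) * w.1 ^ 2 + π * I * (η - w.2) * w.1)) *
        ((s : ℂ) * gau (η - w.2) s) +
        (2 * π * nc 1 * w.1 * cexp (-(π / 2) * w.1 ^ 2 + π * I * (η - w.2) * w.1)) *
        gau (η - w.2) s) (t - w.1 / 2) := by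
    intro t
    unfold tfShift tst
    rw [hermiteFn_one]
    simp only [map_mul, map_neg, Complex.conj_ofReal, ← Complex.exp_conj,
      map_pow, Complex.conj_I, Complex.conj_ofNat]
    unfold gau
    have e1 : cexp (-π * t ^ 2 + 2 * π * I * η * t) * (cexp (2 * π * -I * w.2 * t) *
        (nc 1 * (-4 * π * ((t - w.1 : ℝ) : ℂ) * cexp (-(π * ((t - w.1 : ℝ) : ℂ) ^ 2))))) =
        (nc 1 * (-4 * π * ((t - w.1 : ℝ) : ℂ))) * cexp ((-π * t ^ 2 + 2 * π * I * η * t) +
          (2 * π * -I * w.2 * t) + (-(π * ((t - w.1 : ℝ) : ℂ) ^ 2))) := by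
      exact exp3 _ _ _ _ _
    have e2 : cexp (-(π / 2) * w.1 ^ 2 + π * I * (η - w.2) * w.1) *
        cexp (-2 * π * ((t - w.1 / 2 : ℝ) : ℂ) ^ 2 + 2 * π * I * ((η - w.2 : ℝ) : ℂ) *
          ((t - w.1 / 2 : ℝ) : ℂ)) = cexp ((-π * t ^ 2 + 2 * π * I * η * t) +
          (2 * π * -I * w.2 * t) + (-(π * ((t - w.1 : ℝ) : ℂ) ^ 2))) := by
      rw [← Complex.exp_add]
      congr 1
      push_cast
      ring
    rw [e1, ← e2]
    push_cast
    ring
  simp_rw [e]
  rw [integral_sub_right_eq_self (fun s : ℝ =>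
    (-4 * π * nc 1 * cexp (-(π / 2) * w.1 ^ 2 + π * I * (η - w.2) * w.1)) *
        ((s : ℂ) * gau (η - w.2) s) +
        (2 * π * nc 1 * w.1 * cexp (-(π / 2) * w.1 ^ 2 + π * I * (η - w.2) * w.1)) *
        gau (η - w.2) s) (w.1 / 2)]
  rw [integral_add ((integrable_mul_gau _).const_mul _) ((integrable_gau _).const_mul _),
    integral_const_mul, integral_const_mul, integral_mul_gau, integral_gau]
  have e3 : cexp (-(π / 2) * (w.1 ^ 2 + (η - w.2) ^ 2) + π * I * (η - w.2) * w.1) =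
      cexp (-(π / 2) * w.1 ^ 2 + π * I * (η - w.2) * w.1) * cexp (-(π / 2) * ((η - w.2 : ℝ) : ℂ) ^ 2) := by
    rw [← Complex.exp_add]
    congr 1
    push_cast
    ring
  rw [e3]
  push_cast
  ring

end Pool.Agent.HermiteLoc
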