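import Mathlib

/-!
The weighted Wiener algebra of Laurent series, as the completion of the real Laurent polynomials
in the norm given by the sum of the absolute values of the coefficients times 2 ^ |n|.
-/

set_option autoImplicit false

open scoped BigOperators Topology
open Complex MeasureTheory

namespace Pool.Agent.HermiteLoc

/-- The weight `2 ^ |n|`. -/
noncomputable def wt (n : ℤ) : ℝ := 2 ^ n.natAbs

lemma wt_pos (n : ℤ) : 0 < wt n := by unfold wt; positivity

lemma one_le_wt (n : ℤ) : 1 ≤ wt n := one_le_pow₀ (by norm_num)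

lemma wt_zero : wt 0 = 1 := by simp [wt]

lemma wt_add_le (m n : ℤ) : wt (m + n) ≤ wt m * wt n := by
  unfold wt
  rw [← pow_add]
  exact pow_le_pow_right₀ (by norm_num) (Int.natAbs_add_le m n)

/-- Real Laurent polynomials, as a type of their own. -/
def LPoly : Type := AddMonoidAlgebra ℝ ℤ

noncomputable instance : CommRing LPoly := inferInstanceAs (CommRing (AddMonoidAlgebra ℝ ℤ))
noncomputable instance : Algebra ℝ LPoly := inferInstanceAs (Algebra ℝ (AddMonoidAlgebra ℝ ℤ))

namespace LPoly

/-- the coefficients -/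
noncomputable def co (p : LPoly) : ℤ →₀ ℝ := AddMonoidAlgebra.coeff p

/-- the monomial with exponent `n` and coefficient `r` -/
noncomputable def mon (n : ℤ) (r : ℝ) : LPoly := AddMonoidAlgebra.single n r

@[simp] lemma co_zero : co 0 = 0 := rfl
@[simp] lemma co_add (p q : LPoly) : co (p + q) = co p + co q := rfl
@[simp] lemma co_neg (p : LPoly) : co (-p) = -co p := rfl
@[simp] lemma co_smul (r : ℝ) (p : LPoly) : co (r • p) = r • co p := rfl
@[simp] lemma co_mon (n : ℤ) (r : ℝ) : co (mon n r) = Finsupp.single n r := rfl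

lemma mon_mul (m n : ℤ) (r s : ℝ) : mon m r * mon n s = mon (m + n) (r * s) :=
  AddMonoidAlgebra.single_mul_single ..

lemma one_eq : (1 : LPoly) = mon 0 1 := rfl

lemma ind {motive : LPoly → Prop} (p : LPoly) (h0 : motive 0)
    (hadd : ∀ p q, motive p → motive q → motive (p + q)) (hmon : ∀ n r, motive (mon n r)) :
    motive p :=
  AddMonoidAlgebra.induction_linear (motive := motive) p h0 hadd hmon

/-- the weighted norm -/
noncomputable def nrm (p : LPoly) : ℝ := (co p).sum fun n a => |a| * wt n

lemma nrm_eq_sum (p : LPoly) (s : Finset ℤ) (hs : (co p).support ⊆ s) :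
    nrm p = ∑ n ∈ s, |co p n| * wt n := by
  unfold nrm
  exact Finsupp.sum_of_support_subset _ hs _ (by simp)

lemma nrm_nonneg (p : LPoly) : 0 ≤ nrm p :=
  Finset.sum_nonneg fun n _ => mul_nonneg (abs_nonneg _) (wt_pos n).le

lemma nrm_zero : nrm 0 = 0 := by simp [nrm]

lemma nrm_neg (p : LPoly) : nrm (-p) = nrm p := by
  rw [nrm_eq_sum (-p) (co p).support (by simp), nrm_eq_sum p (co p).support (by simp)]
  simp

lemma nrm_add_le (p q : LPoly) : nrm (p + q) ≤ nrm p + nrm q := by
  classical
  rw [nrm_eq_sum (p + q) ((co p).support ∪ (co q).support)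
      (by rw [co_add]; exact Finsupp.support_add),
    nrm_eq_sum p ((co p).support ∪ (co q).support) Finset.subset_union_left,
    nrm_eq_sum q ((co p).support ∪ (co q).support) Finset.subset_union_right,
    ← Finset.sum_add_distrib]
  refine Finset.sum_le_sum fun n _ => ?_
  rw [← add_mul]
  refine mul_le_mul_of_nonneg_right ?_ (wt_pos n).le
  simpa using abs_add_le (co p n) (co q n)

lemma nrm_mon (n : ℤ) (r : ℝ) : nrm (mon n r) = |r| * wt n := by
  simp [nrm]

lemma nrm_sum_le {ι : Type*} (s : Finset ι) (f : ι → LPoly) :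
    nrm (∑ i ∈ s, f i) ≤ ∑ i ∈ s, nrm (f i) := by
  classical
  induction s using Finset.induction_on with
  | empty => simp [nrm_zero]
  | insert a s ha ih =>
    rw [Finset.sum_insert ha, Finset.sum_insert ha]
    exact (nrm_add_le _ _).trans (by gcongr)

lemma mul_eq (p q : LPoly) :
    p * q = ∑ m ∈ (co p).support, ∑ n ∈ (co q).support, mon (m + n) (co p m * co q n) :=
  AddMonoidAlgebra.mul_def (R := ℝ) (M := ℤ) p q

lemma nrm_mul_le (p q : LPoly) : nrm (p * q) ≤ nrm p * nrm q := by
  rw [mul_eq]
  refine (nrm_sum_le _ _).trans ?_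
  have h1 : nrm p * nrm q = ∑ m ∈ (co p).support, ∑ n ∈ (co q).support,
      (|co p m| * wt m) * (|co q n| * wt n) := by
    unfold nrm Finsupp.sum
    rw [Finset.sum_mul_sum]
  rw [h1]
  refine Finset.sum_le_sum fun m _ => (nrm_sum_le _ _).trans (Finset.sum_le_sum fun n _ => ?_)
  rw [nrm_mon, abs_mul]
  calc |co p m| * |co q n| * wt (m + n) ≤ |co p m| * |co q n| * (wt m * wt n) := by
        gcongr; exact wt_add_le m n
    _ = _ := by ring

noncomputable instance : SeminormedCommRing LPoly :=
  { AddGroupSeminorm.toSeminormedAddCommGroup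
      ({ toFun := nrm, map_zero' := nrm_zero, add_le' := nrm_add_le, neg' := nrm_neg } :
        AddGroupSeminorm LPoly), (inferInstance : CommRing LPoly) with
    norm_mul_le := nrm_mul_le }

lemma norm_def (p : LPoly) : ‖p‖ = nrm p := rfl

noncomputable instance : NormedAlgebra ℝ LPoly where
  norm_smul_le r p := by
    rw [norm_def, norm_def, nrm_eq_sum (r • p) (co p).support (by
      rw [co_smul]; exact Finsupp.support_smul), nrm_eq_sum p (co p).support (by simp), Finset.mul_sum]
    refine Finset.sum_le_sum fun n _ => ?_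
    simp [abs_mul, mul_assoc]

end LPoly

end Pool.Agent.HermiteLoc
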