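import Pool.Agent.HermiteLoc.Wiener
set_option autoImplicit false

open scoped BigOperators Topology
open Complex MeasureTheory

namespace Pool.Agent.HermiteLoc

/-- the space of absolutely summable real sequences -/
abbrev L1 : Type := lp (fun _ : ℕ => ℝ) 1

lemma L1_norm (x : L1) : ‖x‖ = ∑' k, |x k| := by
  have := lp.norm_eq_tsum_rpow (p := 1) (by simp) x
  simpa using this

lemma L1_summable (x : L1) : Summable fun k => |x k| := by
  have := (lp.memℓp x).summable (p := 1) (by simp)
  simpa using this

lemma L1_mem {f : ℕ → ℝ} (hf : Summable fun k => |f k|) : Memℓp (E := fun _ : ℕ => ℝ) f 1 := by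
  apply memℓp_gen
  simpa using hf

/-- The bounded linear map from `L1` to a Banach space determined by a bounded sequence. -/
noncomputable def l1map {G : Type*} [NormedAddCommGroup G] [NormedSpace ℝ G] [CompleteSpace G]
    (e : ℕ → G) (C : ℝ) (h : ∀ k, ‖e k‖ ≤ C) : L1 →L[ℝ] G :=
  LinearMap.mkContinuous
    { toFun := fun x => ∑' k, x k • e k
      map_add' := by
        intro x y
        have hs : ∀ x : L1, Summable fun k => x k • e k := fun x => by
          refine Summable.of_norm_bounded (g := fun k => |x k| * C) ((L1_summable x).mul_right C) fun k => ?_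
          rw [norm_smul]; exact mul_le_mul_of_nonneg_left (h k) (abs_nonneg _)
        rw [← (hs x).tsum_add (hs y)]
        simp [add_smul]
      map_smul' := by
        intro r x
        simp only [RingHom.id_apply]
        rw [← tsum_const_smul'']
        simp [smul_smul] } C
    (by
      intro x
      have hs1 : Summable fun k => |x k| * C := (L1_summable x).mul_right C
      have hb : ∀ k, ‖x k • e k‖ ≤ |x k| * C := fun k => by
        rw [norm_smul]; exact mul_le_mul_of_nonneg_left (h k) (abs_nonneg _)
      have hs : Summable fun k => ‖x k • e k‖ := Summable.of_nonneg_of_le (fun _ => norm_nonneg _) hb hs1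
      calc ‖∑' k, x k • e k‖ ≤ ∑' k, ‖x k • e k‖ := norm_tsum_le_tsum_norm hs
        _ ≤ ∑' k, |x k| * C := hs.tsum_le_tsum hb hs1
        _ = C * ‖x‖ := by rw [tsum_mul_right, L1_norm, mul_comm])

lemma l1map_apply {G : Type*} [NormedAddCommGroup G] [NormedSpace ℝ G] [CompleteSpace G]
    (e : ℕ → G) (C : ℝ) (h : ∀ k, ‖e k‖ ≤ C) (x : L1) : l1map e C h x = ∑' k, x k • e k := rfl

lemma l1map_summable {G : Type*} [NormedAddCommGroup G] [NormedSpace ℝ G] [CompleteSpace G]
    (e : ℕ → G) (C : ℝ) (h : ∀ k, ‖e k‖ ≤ C) (x : L1) : Summable fun k => x k • e k := by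
  refine Summable.of_norm_bounded (g := fun k => |x k| * C) ((L1_summable x).mul_right C) fun k => ?_
  rw [norm_smul]; exact mul_le_mul_of_nonneg_left (h k) (abs_nonneg _)

lemma l1map_norm_le {G : Type*} [NormedAddCommGroup G] [NormedSpace ℝ G] [CompleteSpace G]
    (e : ℕ → G) (C : ℝ) (hC : 0 ≤ C) (h : ∀ k, ‖e k‖ ≤ C) : ‖l1map e C h‖ ≤ C :=
  LinearMap.mkContinuous_norm_le _ hC _

/-- The weighted Wiener algebra. -/
def WA : Type := UniformSpace.Completion LPoly

noncomputable instance : NormedCommRing WA :=
  inferInstanceAs (NormedCommRing (UniformSpace.Completion LPoly))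
noncomputable instance : NormedAlgebra ℝ WA :=
  inferInstanceAs (NormedAlgebra ℝ (UniformSpace.Completion LPoly))
instance : CompleteSpace WA := inferInstanceAs (CompleteSpace (UniformSpace.Completion LPoly))

/-- the inclusion of the Laurent polynomials -/
noncomputable def ofP (p : LPoly) : WA := ((p : LPoly) : UniformSpace.Completion LPoly)

lemma ofP_norm (p : LPoly) : ‖ofP p‖ = ‖p‖ := UniformSpace.Completion.norm_coe p
lemma ofP_mul (p q : LPoly) : ofP (p * q) = ofP p * ofP q := UniformSpace.Completion.coe_mul p q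
lemma ofP_one : ofP 1 = 1 := UniformSpace.Completion.coe_one LPoly
lemma ofP_zero : ofP 0 = 0 := UniformSpace.Completion.coe_zero
lemma ofP_add (p q : LPoly) : ofP (p + q) = ofP p + ofP q := UniformSpace.Completion.coe_add p q
lemma ofP_smul (r : ℝ) (p : LPoly) : ofP (r • p) = r • ofP p := UniformSpace.Completion.coe_smul r p

/-- Extension of a continuous linear map from the Laurent polynomials. -/
noncomputable def extP {G : Type*} [NormedAddCommGroup G] [NormedSpace ℝ G] [CompleteSpace G]
    (f : LPoly →L[ℝ] G) : WA →L[ℝ] G := ContinuousLinearMap.fromCompletion f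

lemma extP_ofP {G : Type*} [NormedAddCommGroup G] [NormedSpace ℝ G] [CompleteSpace G]
    (f : LPoly →L[ℝ] G) (p : LPoly) : extP f (ofP p) = f p :=
  ContinuousLinearMap.fromCompletion_apply_coe f p

lemma ofP_induction {motive : WA → Prop} (a : WA) (hc : IsClosed {a | motive a})
    (h : ∀ p, motive (ofP p)) : motive a :=
  UniformSpace.Completion.induction_on a hc h

/-- The monomials of the Wiener algebra. -/
noncomputable def T (n : ℤ) : WA := ofP (LPoly.mon n 1)

lemma norm_T (n : ℤ) : ‖T n‖ = wt n := by
  rw [T, ofP_norm, LPoly.norm_def, LPoly.nrm_mon]; simp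

lemma T_mul (m n : ℤ) : T m * T n = T (m + n) := by
  rw [T, T, T, ← ofP_mul, LPoly.mon_mul, one_mul]

lemma T_zero : T 0 = 1 := by
  rw [T, ← LPoly.one_eq, ofP_one]

lemma coe_mon (n : ℤ) (r : ℝ) : ofP (LPoly.mon n r) = r • T n := by
  rw [T, ← ofP_smul]
  congr 1
  change AddMonoidAlgebra.single n r = r • AddMonoidAlgebra.single n (1 : ℝ)
  rw [AddMonoidAlgebra.smul_single, smul_eq_mul, mul_one]

/-- Induction principle: a closed condition, additive, and true on real multiples of the monomials
holds everywhere. -/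
lemma WA_induction {motive : WA → Prop} (a : WA) (hc : IsClosed {a | motive a}) (h0 : motive 0)
    (hadd : ∀ a b, motive a → motive b → motive (a + b)) (hmon : ∀ n (r : ℝ), motive (r • T n)) :
    motive a := by
  refine ofP_induction a hc fun p => ?_
  refine LPoly.ind (motive := fun p => motive (ofP p)) p (by rw [ofP_zero]; exact h0) ?_ ?_
  · intro p q hp hq
    rw [ofP_add]
    exact hadd _ _ hp hq
  · intro n r
    rw [coe_mon]
    exact hmon n r

/-- Two continuous linear maps on the Wiener algebra which agree on monomials are equal. -/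
lemma WA_ext {G : Type*} [NormedAddCommGroup G] [NormedSpace ℝ G] (f g : WA →L[ℝ] G)
    (h : ∀ n, f (T n) = g (T n)) : f = g := by
  ext a
  refine WA_induction (motive := fun a => f a = g a) a (isClosed_eq f.continuous g.continuous)
    (by simp) (fun a b ha hb => by rw [map_add, map_add, ha, hb]) fun n r => by
      rw [map_smul, map_smul, h]

/-- A bounded family of vectors defines a continuous linear map on the Wiener algebra. -/
noncomputable def wmap {G : Type*} [NormedAddCommGroup G] [NormedSpace ℝ G] [CompleteSpace G]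
    (e : ℤ → G) (h : ∀ n, ‖e n‖ ≤ wt n) : WA →L[ℝ] G :=
  extP (LinearMap.mkContinuous
    { toFun := fun p : LPoly => (p.co).sum fun n r => r • e n
      map_add' := by
        intro p q
        rw [LPoly.co_add]
        exact Finsupp.sum_add_index' (by simp) (by intro n a b; rw [add_smul])
      map_smul' := by
        intro r p
        rw [LPoly.co_smul, Finsupp.sum_smul_index' (by simp), Finsupp.smul_sum]
        simp [smul_smul] } 1
    (by
      intro p
      rw [one_mul]
      refine (norm_sum_le _ _).trans ?_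
      refine Finset.sum_le_sum fun n _ => ?_
      rw [norm_smul]
      exact mul_le_mul_of_nonneg_left (h n) (abs_nonneg _)))

lemma wmap_T {G : Type*} [NormedAddCommGroup G] [NormedSpace ℝ G] [CompleteSpace G]
    (e : ℤ → G) (h : ∀ n, ‖e n‖ ≤ wt n) (n : ℤ) : wmap e h (T n) = e n := by
  rw [wmap, T, extP_ofP]
  simp [Finsupp.sum_single_index]

lemma wmap_norm {G : Type*} [NormedAddCommGroup G] [NormedSpace ℝ G] [CompleteSpace G]
    (e : ℤ → G) (h : ∀ n, ‖e n‖ ≤ wt n) (a : WA) : ‖wmap e h a‖ ≤ ‖a‖ := by
  refine ofP_induction (motive := fun a => ‖wmap e h a‖ ≤ ‖a‖) a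
    (isClosed_le (by fun_prop) (by fun_prop)) fun p => ?_
  rw [wmap, extP_ofP, ofP_norm]
  refine (norm_sum_le _ _).trans ?_
  refine Finset.sum_le_sum fun n _ => ?_
  rw [norm_smul]
  exact mul_le_mul_of_nonneg_left (h n) (abs_nonneg _)

/-- Evaluation at the point `exp (i θ)` of the unit circle. -/
noncomputable def ev (θ : ℝ) : WA →L[ℝ] ℂ :=
  wmap (fun n => cexp (n * θ * I)) (fun n => by
    have : ‖cexp (n * θ * I)‖ = 1 := by
      have := Complex.norm_exp_ofReal_mul_I (n * θ)
      push_cast at this
      exact this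
    rw [this]; exact one_le_wt n)

lemma ev_T (θ : ℝ) (n : ℤ) : ev θ (T n) = cexp (n * θ * I) := wmap_T _ _ _

lemma ev_norm (θ : ℝ) (a : WA) : ‖ev θ a‖ ≤ ‖a‖ := wmap_norm _ _ _

lemma ev_mul (θ : ℝ) (a b : WA) : ev θ (a * b) = ev θ a * ev θ b := by
  refine WA_induction (motive := fun a => ev θ (a * b) = ev θ a * ev θ b) a
    (isClosed_eq (by fun_prop) (by fun_prop)) (by simp) (fun a a' h h' => by
      rw [add_mul, map_add, map_add, add_mul, h, h']) fun n r => ?_
  refine WA_induction (motive := fun b => ev θ (r • T n * b) = ev θ (r • T n) * ev θ b) b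
    (isClosed_eq (by fun_prop) (by fun_prop)) (by simp) (fun a a' h h' => by
      rw [mul_add, map_add, map_add, mul_add, h, h']) fun m s => ?_
  rw [smul_mul_smul_comm, T_mul, map_smul, map_smul, map_smul, ev_T, ev_T, ev_T, smul_mul_smul_comm,
    ← Complex.exp_add]
  congr 2
  push_cast; ring

lemma ev_one (θ : ℝ) : ev θ 1 = 1 := by
  rw [← T_zero, ev_T]; simp

/-- Evaluation as a ring homomorphism. -/
noncomputable def evHom (θ : ℝ) : WA →+* ℂ :=
  { toFun := ev θ
    map_one' := ev_one θ
    map_mul' := ev_mul θ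
    map_zero' := map_zero _
    map_add' := map_add _ }

lemma ev_exp (θ : ℝ) (a : WA) : ev θ (NormedSpace.exp a) = cexp (ev θ a) := by
  let _ : NormedAlgebra ℚ WA := NormedAlgebra.restrictScalars ℚ ℝ WA
  have := NormedSpace.map_exp (evHom θ) (ev θ).continuous a
  rw [Complex.exp_eq_exp_ℂ]
  exact this

/-- The coefficient functionals. -/
noncomputable def cf (m : ℤ) : WA →L[ℝ] ℝ :=
  wmap (fun n => if n = m then 1 else 0) (fun n => by
    split_ifs
    · simpa using one_le_wt n
    · simpa using (wt_pos n).le)

lemma cf_T (m n : ℤ) : cf m (T n) = if n = m then 1 else 0 := wmap_T _ _ _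

/-- The coefficients with exponents `-2, -3, ...`, suitably weighted, as an element of `L1`. -/
noncomputable def negProj : WA →L[ℝ] L1 :=
  wmap (fun n => if n ≤ -2 then (wt n) • lp.single 1 ((-n - 2).toNat) (1 : ℝ) else 0) (fun n => by
    split_ifs
    · rw [norm_smul, lp.norm_single (by simp)]
      simp [abs_of_pos (wt_pos n)]
    · simpa using (wt_pos n).le)

lemma negProj_apply (a : WA) (k : ℕ) : negProj a k = 2 ^ (k + 2) * cf (-(k + 2 : ℤ)) a := by
  refine WA_induction (motive := fun a => negProj a k = 2 ^ (k + 2) * cf (-(k + 2 : ℤ)) a) a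
    (isClosed_eq ?_ (by fun_prop)) (by simp) (fun a a' h h' => by
      rw [map_add, lp.coeFn_add, Pi.add_apply, h, h', map_add, mul_add]) fun n r => ?_
  · have : Continuous fun x : L1 => x k := by
      have h := (lp.lipschitzWith_one_eval (E := fun _ : ℕ => ℝ) 1 k).continuous
      exact h
    exact this.comp negProj.continuous
  · rw [map_smul, map_smul, cf_T, negProj, wmap_T, lp.coeFn_smul, Pi.smul_apply]
    by_cases h : n = -(k + 2 : ℤ)
    · subst h
      have h1 : (-(-((k : ℤ) + 2)) - 2).toNat = k := by omega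
      have h2 : (-((k : ℤ) + 2)).natAbs = k + 2 := by omega
      rw [if_pos (by omega), if_pos rfl, h1, lp.coeFn_smul, Pi.smul_apply, wt, h2]
      simp [lp.single_apply]
      ring
    · rw [if_neg h]
      by_cases h' : n ≤ -2
      · rw [if_pos h']
        have : k ≠ (-n - 2).toNat := by omega
        simp [lp.single_apply, this]
      · rw [if_neg h']
        simp

end Pool.Agent.HermiteLoc
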